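import Pool.Agent.H74.STAT.NTop
import Pool.Agent.H1.GEN.One
import Pool.Agent.H2.GEN.ChT

/-!
# No new labels in a class

`no_last`: in a class with the thresholds of the labels of the coordinate `k` (`Pool.ONE.tgs k`),
the systems of the families have no new label of their last coordinate `k`, with a better
precision than the threshold.

`no_base`: the same for the thresholds of the chains (`Pool.CHT.chsys`), for every coordinate of
the system; here the gradients must be small.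
-/

set_option autoImplicit false

namespace Pool.STAT.NL

open Finset MvPolynomial
open Pool.Agent.H49.Ent Pool.Agent.H32.Dense Pool.STK Pool.KS3 Pool.KA Pool.KSAT Pool.K2S Pool.PB
open Pool.GEN Pool.STAT.CDat Pool.S6C
open Pool.BFL (Pl CB Pb P2 MC alt)
open Pool.LBT (LSys Slo Tri ThrOf)
open Pool.LBN (Tch cof cof_lt cof_ge)

/-- Statements about all events of positive relative probability. -/
theorem Bas.frac {m : ℕ} {S : PCl m} {Φ : Stat m} (h : Bas S Φ) {c : ℝ} (hc : 0 < c) :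
    Bas S (fun J F A => ∀ B : F.Ω → Prop, Sub B A → c * Pe F.p A ≤ Pe F.p B → Φ J F B) := by
  obtain ⟨τ, hτ, J₁, h⟩ := h
  obtain ⟨J₂, hJ₂⟩ := exists_nat_ge (-Real.log c / (τ / 2))
  refine ⟨τ / 2, half_pos hτ, max J₁ J₂, fun J hJ F A hA B hB hP =>
    h J ((le_max_left _ _).trans hJ) F B ?_⟩
  have h2 : Real.exp (-(τ / 2 * J)) * Pe F.p A ≤ Pe F.p B := by
    refine le_trans (mul_le_mul_of_nonneg_right ?_ (Pe_nonneg F.isLaw A)) hP
    have h3 : (J₂ : ℝ) ≤ J := by exact_mod_cast (le_max_right _ _).trans hJ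
    have h4 : -Real.log c ≤ τ / 2 * J := by
      have h5 := hJ₂.trans h3
      rw [div_le_iff₀ (by linarith)] at h5
      linarith
    calc Real.exp (-(τ / 2 * J)) ≤ Real.exp (Real.log c) := Real.exp_le_exp.2 (by linarith)
      _ = c := Real.exp_log hc
  have h1 := S.res (half_pos hτ).le hA hB h2
  rwa [add_halves] at h1

/-- **No new label of the last coordinate**, for the thresholds over any list. -/
theorem no_last {m : ℕ} {S : PCl m} {k : Fin m} {P : ℝ → ℝ → ℝ}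
    (hS : ThrOf (Pool.ONE.tgs k) S (fun _ => P)) (n K K' A' : ℕ) (C₆ η' h K₁ : ℝ) (a : ℚ)
    (hn : 1 ≤ n) (ha0 : 0 ≤ a) (ha : a ≤ 1) (hh : 0 < h) (hP : P a a + h ≤ 1) (hη : 0 < η')
    (hK₁ : 0 < K₁) (hC₆ : 0 ≤ C₆) :
    ∃ c₀ : ℕ, Bas S (fun J F A => ∀ (C : CDat F) (e : ℕ → Fin m) (w₀ z M v v' e₀ : ℕ)
      (g : ℕ → ℕ → ℕ) (σ : ℕ → ℝ) (κ C₁ : ℝ) (B₀ B : F.Ω → Prop),
      Sub B₀ A → C.Cnd e n K w₀ z M g C₁ B₀ → LipC F C w₀ z v n e₀ g B₀ → Sub B B₀ →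
      Pe F.p A ≤ K₁ * Pe F.p B →
      (∀ j j', 1 ≤ j → j ≤ n → 1 ≤ j' → j' ≤ n → e j = e j' → j = j') → e n = k →
      (C.nd e n w₀ z M g).Ok0 n K J w₀ z M σ κ C₁ (Pool.Agent.H49.Ent.cond F.p B True) →
      v ≤ v' → v' ≤ M → (∀ i, 1 ≤ i → i ≤ n → g v i ≤ J) → w₀ + v * z ≤ ⌊(a : ℝ) * J⌋₊ →
      ⌊(P a a + h) * J⌋₊ + c₀ ≤ g v n + A' * z →
      ¬ (C.nd e n w₀ z M g).NewLab0 J w₀ z n v v' A' K' C₆ η'
        (Pool.Agent.H49.Ent.cond F.p B True)) := by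
  classical
  obtain ⟨K'', c₀, hnd⟩ := nd_chn n K K' n hn le_rfl
  refine ⟨c₀, ?_⟩
  have hno := hS.no () K'' a a h ha0 le_rfl ha hh hP
  refine Bas.mono 0 (Bas.frac hno (c := η' / 2 / K₁) (by positivity)) ?_
  intro J _ F A hA C e w₀ z M v v' e₀ g σ κ C₁ B₀ B hB₀ hC hlip hB hPB hinj hek hOk hvv hvM
    hgJ hwa hprec hNL
  obtain ⟨B', hB'B, hPB', hch⟩ := hnd F C e w₀ z M v v' A' ⌊(P a a + h) * J⌋₊ e₀
    (e₀ + A' * z + ⌈2 * (C₆ * z)⌉₊ + c₀) g σ κ C₁ C₆ η' B₀ B _ hC hlip hB hinj (fun _ => rfl)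
    hOk hvv hvM hC₆ hNL hprec le_rfl
  refine hA B' (fun ω hω => hB₀ ω (hB ω (hB'B ω hω))) ?_ ?_
  · have h1 := Pe_nonneg F.isLaw A
    calc η' / 2 / K₁ * Pe F.p A ≤ η' / 2 / K₁ * (K₁ * Pe F.p B) :=
          mul_le_mul_of_nonneg_left hPB (by positivity)
      _ = η' / 2 * Pe F.p B := by field_simp
      _ ≤ _ := hPB'
  · -- the chain is a label of `k`
    set l : List (Fin m) := (List.range (n - 1)).map (fun l => e (l + 1)) with hl
    have hlen : l.length = n - 1 := by simp [hl]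
    have hmem : ∀ {x : Fin m}, x ∈ l → ∃ j, j < n - 1 ∧ e (j + 1) = x := by
      intro x hx
      rw [hl, List.mem_map] at hx
      obtain ⟨j, hj, hj'⟩ := hx
      exact ⟨j, List.mem_range.1 hj, hj'⟩
    refine ⟨l, ?_, fun hk => ?_, ?_⟩
    · rw [hl]
      refine List.Nodup.map_on (fun x hx y hy hxy => ?_) List.nodup_range
      have hx' := List.mem_range.1 hx
      have hy' := List.mem_range.1 hy
      have := hinj (x + 1) (y + 1) (by omega) (by omega) (by omega) (by omega) hxy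
      omega
    · obtain ⟨j, hj, hj'⟩ := hmem hk
      have := hinj (j + 1) n (by omega) (by omega) hn le_rfl (hj'.trans hek.symm)
      omega
    · refine ⟨w₀ + v * z, w₀ + v * z, e₀ + A' * z + ⌈2 * (C₆ * z)⌉₊ + c₀,
        fun l => if l = n - 1 then ⌊(P a a + h) * J⌋₊ else g v (l + 1), le_rfl, hwa, hwa, ?_, ?_, ?_⟩
      · rw [hlen]
        simp only [if_true]
        exact Nat.add_le_add_left hwa _
      · intro i hi
        rw [hlen] at hi
        simp only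
        split_ifs with h1
        · exact Pool.LBT.fl_le' hP J
        · exact hgJ (i + 1) (by omega) (by omega)
      · rw [hlen]
        have e1 : n - 1 + 1 = n := by omega
        rw [e1]
        refine Pool.LBN.chn_congr hch (fun i hi => ?_) (fun _ _ => le_rfl) fun _ _ => rfl
        rcases Nat.lt_or_ge i (n - 1) with h2 | h2
        · rw [cof_lt (by rw [hlen]; exact h2)]
          simp [hl]
        · rw [cof_ge (by rw [hlen]; exact h2)]
          have e2 : i + 1 = n := by omega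
          rw [e2, hek]

/-- **No new label of any coordinate of the system**, for the thresholds of the chains; the
gradients of the new label are at most `2 ^ (ε J)`. -/
theorem no_base {m : ℕ} {S : PCl m} {θ : ℝ} {P : List (Fin m) × Fin m → ℝ → ℝ → ℝ}
    (hS : ThrOf (Pool.CHT.chsys m θ) S P) (e : ℕ → Fin m) (n K K' A' i : ℕ)
    (C₆ η' h K₁ ε : ℝ) (a : ℚ) (hi : 1 ≤ i) (hin : i ≤ n) (ha0 : 0 ≤ a) (ha : a ≤ 1)
    (hε : ε < θ * a) (hh : 0 < h)
    (hP : Pool.CHT.bet P (fun l => e (l + 1)) (i - 1) a a + h ≤ 1) (hη : 0 < η') (hK₁ : 0 < K₁)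
    (hC₆ : 0 ≤ C₆) :
    ∃ c₀ : ℕ, Bas S (fun J F A => ∀ (C : CDat F) (w₀ z M v v' e₀ : ℕ)
      (g : ℕ → ℕ → ℕ) (σ : ℕ → ℝ) (κ C₁ : ℝ) (B₀ B : F.Ω → Prop),
      Sub B₀ A → C.Cnd e n K w₀ z M g C₁ B₀ → LipC F C w₀ z v i e₀ g B₀ → Sub B B₀ →
      Pe F.p A ≤ K₁ * Pe F.p B →
      (∀ j j', 1 ≤ j → j ≤ n → 1 ≤ j' → j' ≤ n → e j = e j' → j = j') →
      (C.nd e n w₀ z M g).Ok0 n K J w₀ z M σ κ C₁ (Pool.Agent.H49.Ent.cond F.p B True) →
      v ≤ v' → v' ≤ M → (∀ i, 1 ≤ i → i ≤ n → g v i ≤ J) → w₀ + v * z ≤ ⌊(a : ℝ) * J⌋₊ →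
      e₀ + A' * z + ⌈2 * (C₆ * z)⌉₊ + c₀ ≤ ⌊ε * J⌋₊ →
      ⌊(Pool.CHT.bet P (fun l => e (l + 1)) (i - 1) a a + h) * J⌋₊ + c₀ ≤ g v i + A' * z →
      ¬ (C.nd e n w₀ z M g).NewLab0 J w₀ z i v v' A' K' C₆ η'
        (Pool.Agent.H49.Ent.cond F.p B True)) := by
  classical
  obtain ⟨K'', c₀, hnd⟩ := nd_chn n K K' i hi hin
  refine ⟨c₀, ?_⟩
  have hno := Pool.CHT.no_unif hS (fun l => e (l + 1)) (i - 1) (fun _ => K'') a a ε h ha0 le_rfl
    ha hε hh hP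
  refine Bas.mono 0 (Bas.frac hno (c := η' / 2 / K₁) (by positivity)) ?_
  intro J _ F A hA C w₀ z M v v' e₀ g σ κ C₁ B₀ B hB₀ hC hlip hB hPB hinj hOk hvv hvM
    hgJ hwa hgr hprec hNL
  obtain ⟨B', hB'B, hPB', hch⟩ := hnd F C e w₀ z M v v' A'
    ⌊(Pool.CHT.bet P (fun l => e (l + 1)) (i - 1) a a + h) * J⌋₊ e₀ ⌊ε * J⌋₊ g σ κ C₁ C₆ η' B₀ B _
    hC hlip hB hinj (fun _ => rfl) hOk hvv hvM hC₆ hNL hprec hgr
  have e1 : i - 1 + 1 = i := by omega
  refine hA B' (fun ω hω => hB₀ ω (hB ω (hB'B ω hω))) ?_ (w₀ + v * z) (w₀ + v * z) ⌊ε * J⌋₊ _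
    le_rfl hwa hwa le_rfl (fun l hl => ?_) ?_ (by rw [e1]; exact hch)
  · have h1 := Pe_nonneg F.isLaw A
    calc η' / 2 / K₁ * Pe F.p A ≤ η' / 2 / K₁ * (K₁ * Pe F.p B) :=
          mul_le_mul_of_nonneg_left hPB (by positivity)
      _ = η' / 2 * Pe F.p B := by field_simp
      _ ≤ _ := hPB'
  · split_ifs with h1
    · exact Pool.LBT.fl_le' hP J
    · exact hgJ (l + 1) (by omega) (by omega)
  · simp only [if_true]
    exact Nat.add_le_add_left hwa _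

end Pool.STAT.NL
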