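import Pool.Agent.H64.STAT.Rows
import Pool.Agent.H33.BFL.REN
import Pool.Agent.H41.L1.REM
import Pool.Agent.H36.KBX.Coef

/-!
# Row RMG of the weighted core: a polynomial which is not small is not small at an almost uniform
sample
-/

set_option autoImplicit false

namespace Pool.STAT

open Finset MvPolynomial
open Pool.Agent.H49.Ent Pool.Agent.H32.Dense Pool.STK Pool.KS3
open Pool.BFL (Pl CB Pb P2 MC alt)

namespace H74

lemma totalDegree_aff {k : ℕ} (a b : ℝ) (P : MvPolynomial (Fin k) ℝ) :
    (Pool.L1.aff a b P).totalDegree ≤ P.totalDegree := by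
  unfold Pool.L1.aff
  refine (Pool.KS3.SML.totalDegree_bind_le _ 1 (fun i => ?_) P).trans (by rw [one_mul])
  refine (totalDegree_add _ _).trans (max_le ?_ ?_)
  · refine (totalDegree_mul _ _).trans ?_
    rw [totalDegree_C, zero_add, totalDegree_X]
  · rw [totalDegree_C]
    exact Nat.zero_le _

/-- the nonnegative version of the sample -/
lemma toNat_inj {N m : ℕ} {s s' : Fin N → ℤ} (hs : ∀ a, |s a| ≤ 2 ^ m) (hs' : ∀ a, |s' a| ≤ 2 ^ m)
    (h : (fun a => (s a + 2 ^ m).toNat) = fun a => (s' a + 2 ^ m).toNat) : s = s' := by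
  funext a
  have h1 := congrFun h a
  have h2 : 0 ≤ s a + 2 ^ m := by linarith [(abs_le.1 (hs a)).1]
  have h3 : 0 ≤ s' a + 2 ^ m := by linarith [(abs_le.1 (hs' a)).1]
  have h4 := Int.toNat_of_nonneg h2
  have h5 := Int.toNat_of_nonneg h3
  have h6 : (((s a + 2 ^ m).toNat : ℕ) : ℤ) = (((s' a + 2 ^ m).toNat : ℕ) : ℤ) := by
    exact_mod_cast h1
  linarith

end H74

open H74 in
theorem rmg_thm : RmgStmt := by
  classical
  intro N D C₀ τ' η hN hC₀ hτ' hη
  obtain ⟨C, hC1, hC⟩ := Pool.Agent.H33.BFL.ren_thm N D C₀ hC₀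
  obtain ⟨C₂, hC₂0, hC₂⟩ := Pool.Agent.H36.KBX.coef_bound N D
  set η₁ : ℝ := min η 1 with hη₁
  have hη₁p : 0 < η₁ := lt_min hη one_pos
  have hη₁1 : η₁ ≤ 1 := min_le_right _ _
  have hl2 : 0 < Real.log 2 := Real.log_pos (by norm_num)
  have hCp : 0 < C := by linarith
  set K₁ : ℝ := Real.log 2 + N * (2 * Real.log 2) + 1 with hK₁
  have hN0 : (0 : ℝ) ≤ N := Nat.cast_nonneg N
  have hK₁p : 0 < K₁ := by positivity
  set τ : ℝ := min (τ' / 4) (Real.log 2) * η₁ / C with hτ
  have hmin : 0 < min (τ' / 4) (Real.log 2) := lt_min (by positivity) hl2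
  have hτp : 0 < τ := by positivity
  have hCτ : C * τ / η₁ = min (τ' / 4) (Real.log 2) := by
    rw [hτ]
    field_simp
  obtain ⟨U₀, hU₀⟩ := exists_nat_ge (max (C * K₁ / η₁ / Real.log 2)
    ((C * K₁ / η₁ + Real.log (C₂ + 1)) * 4 / τ'))
  refine ⟨τ' / 2, τ, by positivity, hτp, U₀, ?_⟩
  intro U m hU hm2 _ W 𝒱 _ q s v P hq hs hH hP _
  have hUr : (U₀ : ℝ) ≤ U := by exact_mod_cast hU
  have hUa : C * K₁ / η₁ ≤ U * Real.log 2 := by
    have := le_trans (le_trans (le_max_left _ _) hU₀) hUr
    rwa [div_le_iff₀ hl2] at this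
  have hUb : C * K₁ / η₁ + Real.log (C₂ + 1) ≤ τ' / 4 * U := by
    have := le_trans (le_trans (le_max_right _ _) hU₀) hUr
    rw [div_le_iff₀ hτ'] at this
    linarith
  have hmr : 2 * (U : ℝ) ≤ m := by exact_mod_cast hm2
  have hU0 : (0 : ℝ) ≤ U := Nat.cast_nonneg U
  set E : W → Prop := fun w => ¬ CB (P (v w)) (Real.exp (-(τ' / 2 * U))) ∧
    |eval (fun a => (s w a : ℝ) / 2 ^ m) (P (v w))| < Real.exp (-(τ' * U)) with hE
  set e : W → Bool := fun w => decide (E w) with he
  set Y : W → Fin N → ℕ := fun w a => (s w a + 2 ^ m).toNat with hY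
  set P' : Bool × 𝒱 → Pl N := fun x => if x.1 = true then Pool.L1.aff 4 (-1) (P x.2) else 0
    with hP'
  set θ : ℝ := τ * U + Real.log 2 + N * (2 * Real.log 2) with hθ
  have hθ1 : θ + 1 = τ * U + K₁ := by rw [hθ, hK₁]; ring
  have hθ0 : 0 ≤ θ := by positivity
  have hexpo : C * (θ + 1) / η₁ = C * τ / η₁ * U + C * K₁ / η₁ := by
    rw [hθ1]
    ring
  have hY2 : ∀ w a, Y w a < 2 ^ (m + 2) := by
    intro w a
    have h1 := hs w a
    have h2 : s w a + 2 ^ m < 2 ^ (m + 2) := by
      have h3 := (abs_le.1 h1).2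
      have h4 : (2 : ℤ) ^ (m + 2) = 4 * 2 ^ m := by ring
      have h5 : (0 : ℤ) < 2 ^ m := by positivity
      linarith
    have h3 : ((s w a + 2 ^ m).toNat : ℤ) < 2 ^ (m + 2) := by
      rw [Int.toNat_of_nonneg (by linarith [(abs_le.1 h1).1])]
      exact h2
    exact_mod_cast h3
  have hCH : N * (((m + 2 : ℕ) : ℝ) * Real.log 2) - θ ≤ CH q Y (fun w => (e w, v w)) := by
    have h1 : CH q s v ≤ CH q e v + CH q s (fun w => (e w, v w)) := CH_le_add hq.nonneg s e v
    have h2 : CH q e v ≤ Real.log 2 := by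
      have h3 : H q (fun w => (e w, v w)) ≤ H q e + H q v :=
        subadd hq.nonneg hq.sum_one (fun _ _ _ _ h => h)
      have h4 : H q e ≤ Real.log (univ : Finset Bool).card :=
        H_le_log_card hq.nonneg hq.sum_one e univ (fun _ _ => mem_univ _)
      have h5 : (((univ : Finset Bool).card : ℕ) : ℝ) = 2 := by simp
      rw [h5] at h4
      unfold CH
      linarith
    have h3 : CH q s (fun w => (e w, v w)) ≤ CH q Y (fun w => (e w, v w)) := by
      refine CH_mono_left hq.nonneg (fun w w' _ _ h => ?_)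
      exact toNat_inj (hs w) (hs w') (Prod.ext_iff.mp h).1
    rw [hθ]
    push_cast
    have h4 : (N : ℝ) * ((m + 2) * Real.log 2) = N * (m * Real.log 2) + N * (2 * Real.log 2) := by
      ring
    rw [h4]
    linarith
  have key := hC W (Bool × 𝒱) q (m + 2) Y (fun w => (e w, v w)) P' (fun _ => True)
    (fun _ => Real.exp (-(τ' * U))) θ η₁ hq hY2
    (by
      intro x
      rw [hP']
      simp only
      split_ifs with h
      · exact (totalDegree_aff _ _ _).trans (hP _)
      · rw [totalDegree_zero]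
        exact Nat.zero_le _)
    hθ0 hη₁p hη₁1 hCH
    (by
      unfold Pb
      simp
      positivity)
    (fun _ => Real.exp_pos _)
    (by
      rw [hexpo, hCτ]
      push_cast
      have h1 : min (τ' / 4) (Real.log 2) * U ≤ Real.log 2 * U :=
        mul_le_mul_of_nonneg_right (min_le_right _ _) hU0
      nlinarith)
    (by
      intro w _
      refine ⟨fun a => (Y w a : ℝ) / 2 ^ (m + 2), fun a => ?_, ?_⟩
      · rw [sub_self, abs_zero]
        positivity
      · rw [hP']
        simp only
        split_ifs with h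
        · have h1 : E w := by
            have : decide (E w) = true := h
            exact of_decide_eq_true this
          rw [Pool.L1.eval_aff]
          have h2 : (fun i => 4 * ((Y w i : ℝ) / 2 ^ (m + 2)) + -1) =
              fun a => (s w a : ℝ) / 2 ^ m := by
            funext a
            have h3 : (Y w a : ℝ) = s w a + 2 ^ m := by
              have h4 : ((s w a + 2 ^ m).toNat : ℤ) = s w a + 2 ^ m :=
                Int.toNat_of_nonneg (by linarith [(abs_le.1 (hs w a)).1])
              have h5 : (((s w a + 2 ^ m).toNat : ℤ) : ℝ) = ((s w a + 2 ^ m : ℤ) : ℝ) := by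
                rw [h4]
              rw [hY]
              simp only
              push_cast at h5
              exact_mod_cast h5
            rw [h3, pow_add]
            field_simp
            ring
          rw [h2]
          exact h1.2.le
        · rw [map_zero, abs_zero]
          exact (Real.exp_pos _).le)
  refine le_trans ?_ (le_trans key (min_le_left _ _))
  unfold Pb
  refine Finset.sum_le_sum (fun w _ => ?_)
  by_cases hw : E w
  · have hbad : ¬ ∀ y : Fin N → ℝ, (∀ i, |y i| ≤ C₀) →
        |eval y (P' (e w, v w))| ≤ Real.exp (C * (θ + 1) / η₁) * Real.exp (-(τ' * U)) := by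
      intro hall
      refine hw.1 (fun k => ?_)
      have he1 : e w = true := decide_eq_true hw
      have h1 := hC₂ (P (v w)) (Real.exp (C * (θ + 1) / η₁) * Real.exp (-(τ' * U))) (hP _)
        (by
          intro y hy
          have h2 := hall (fun i => (y i + 1) / 4) (fun i => by
            have h3 := abs_le.1 (hy i)
            refine le_trans (abs_le.2 ⟨?_, ?_⟩) hC₀ <;> linarith)
          rw [hP'] at h2
          simp only at h2
          rw [if_pos he1, Pool.L1.eval_aff] at h2
          have h3 : (fun i => 4 * ((y i + 1) / 4) + -1) = y := by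
            funext i
            ring
          rwa [h3] at h2) k
      refine le_trans h1 ?_
      rw [← Real.exp_add, hexpo, hCτ]
      have h4 : min (τ' / 4) (Real.log 2) * U ≤ τ' / 4 * U :=
        mul_le_mul_of_nonneg_right (min_le_left _ _) hU0
      have h5 : C₂ ≤ Real.exp (Real.log (C₂ + 1)) := by
        rw [Real.exp_log (by linarith)]
        linarith
      calc C₂ * Real.exp (min (τ' / 4) (Real.log 2) * U + C * K₁ / η₁ + -(τ' * U))
          ≤ Real.exp (Real.log (C₂ + 1)) *
            Real.exp (min (τ' / 4) (Real.log 2) * U + C * K₁ / η₁ + -(τ' * U)) :=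
            mul_le_mul_of_nonneg_right h5 (Real.exp_pos _).le
        _ = Real.exp (Real.log (C₂ + 1) +
            (min (τ' / 4) (Real.log 2) * U + C * K₁ / η₁ + -(τ' * U))) := by
            rw [← Real.exp_add]
        _ ≤ _ := Real.exp_le_exp.2 (by linarith)
    rw [if_pos hw, if_pos hbad]
  · rw [if_neg hw]
    split_ifs
    · exact hq.nonneg w
    · exact le_rfl

end Pool.STAT
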