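import Pool.Agent.H87.STAT.Exl

/-!
# Gradients on natural boxes

A polynomial which is at most `S` on the natural box of a triangular system has the derivatives
`C S 2 ^ N (1 + L)` there, where `2 ^ (-N)` is the smallest side and `L` bounds the derivatives of
the system.
-/

set_option autoImplicit false

namespace Pool.STAT.NL

open Finset MvPolynomial
open Pool.Agent.H49.Ent Pool.Agent.H32.Dense Pool.STK Pool.KS3
open Pool.BFL (Pl CB Pb P2 MC alt)
open Pool.STAT.AdxRow (evl_congr bnd_congr vars_bnd)

/-- The chain rule for a curve in the variables. -/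
theorem hasDerivAt_curve {σ : Type*} [Fintype σ] (c : ℝ → σ → ℝ) (c' : σ → ℝ) (t₀ : ℝ)
    (hc : ∀ s, HasDerivAt (fun t => c t s) (c' s) t₀) (f : MvPolynomial σ ℝ) :
    HasDerivAt (fun t => eval (c t) f) (∑ s, c' s * eval (c t₀) (pderiv s f)) t₀ := by
  classical
  induction f using MvPolynomial.induction_on with
  | C a => simpa using hasDerivAt_const t₀ a
  | add p q hp hq =>
    have := hp.fun_add hq
    simp only [map_add]
    refine this.congr_deriv ?_
    rw [← Finset.sum_add_distrib]
    exact Finset.sum_congr rfl fun s _ => by ring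
  | mul_X p i hp =>
    have := hp.fun_mul (hc i)
    simp only [map_mul, eval_X]
    refine this.congr_deriv ?_
    simp only [pderiv_mul, map_add, map_mul, eval_X, pderiv_X, Finset.sum_mul]
    have h2 : eval (c t₀) p * c' i =
        ∑ s, c' s * (eval (c t₀) p * eval (c t₀) ((Pi.single s 1 : σ → MvPolynomial σ ℝ) i)) := by
      rw [Finset.sum_eq_single i]
      · simp; ring
      · intro b _ hb
        simp [hb.symm]
      · simp
    rw [h2, ← Finset.sum_add_distrib]
    exact Finset.sum_congr rfl fun s _ => by ring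

/-- The derivative in one variable, any set of variables. -/
theorem hasDerivAt_upd {σ : Type*} [DecidableEq σ] (f : MvPolynomial σ ℝ) (x : σ → ℝ) (i : σ)
    (s : ℝ) : HasDerivAt (fun s => eval (Function.update x i s) f)
      (eval (Function.update x i s) (pderiv i f)) s := by
  induction f using MvPolynomial.induction_on with
  | C a => simpa using hasDerivAt_const s a
  | add p q hp hq =>
    have := hp.fun_add hq
    simpa only [map_add] using this
  | mul_X p j hp =>
    have h1 : HasDerivAt (fun s => Function.update x i s j) (if j = i then 1 else 0) s := by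
      by_cases hj : j = i
      · subst hj
        simp only [Function.update_self, if_true]
        exact hasDerivAt_id' s
      · simp only [Function.update_of_ne hj, if_neg hj]
        exact hasDerivAt_const s (x j)
    have := hp.fun_mul h1
    simp only [map_mul, MvPolynomial.eval_X]
    refine this.congr_deriv ?_
    rw [MvPolynomial.pderiv_mul, map_add, map_mul, map_mul, MvPolynomial.eval_X]
    congr 1
    by_cases hj : j = i
    · subst hj
      simp
    · rw [MvPolynomial.pderiv_X_of_ne hj]
      simp [hj]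

/-- The derivatives on dilated cubes, from the coefficients. -/
theorem pderiv_cube {n D₀ : ℕ} {C S ρ : ℝ} (f : MvPolynomial (Fin n) ℝ) (hD : f.totalDegree ≤ D₀)
    (hC : ∀ k, |f.coeff k| ≤ C * S) (hCS : 0 ≤ C * S) {y : Fin n → ℝ} (hρ : 1 ≤ ρ)
    (hy : ∀ j, |y j| ≤ ρ) (j : Fin n) :
    |eval y (pderiv j f)| ≤ f.support.card * (D₀ * (C * S) * ρ ^ D₀) := by
  classical
  have h1 : pderiv j f = ∑ k ∈ f.support, pderiv j (monomial k (f.coeff k)) := by
    conv_lhs => rw [f.as_sum]
    rw [map_sum]
  rw [h1, map_sum]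
  refine (Finset.abs_sum_le_sum_abs _ _).trans ?_
  have h2 : ∀ k ∈ f.support,
      |eval y (pderiv j (monomial k (f.coeff k)))| ≤ D₀ * (C * S) * ρ ^ D₀ := by
    intro k hk
    rw [pderiv_monomial, eval_monomial, abs_mul, abs_mul]
    have h3 : |Finsupp.prod (k - Finsupp.single j 1) fun i e => y i ^ e| ≤ ρ ^ D₀ := by
      have h5 := (le_totalDegree hk).trans hD
      obtain ⟨k', hk'⟩ : ∃ k' : Fin n →₀ ℕ, k' = k - Finsupp.single j 1 := ⟨_, rfl⟩
      rw [← hk']
      unfold Finsupp.prod
      rw [Finset.abs_prod]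
      calc ∏ i ∈ k'.support, |y i ^ k' i| ≤ ∏ i ∈ k'.support, ρ ^ k' i := by
            refine Finset.prod_le_prod (fun _ _ => abs_nonneg _) (fun i _ => ?_)
            rw [abs_pow]
            exact pow_le_pow_left₀ (abs_nonneg _) (hy i) _
        _ = ρ ^ (Finsupp.sum k' fun _ e => e) := by
            rw [Finset.prod_pow_eq_pow_sum]
            rfl
        _ ≤ ρ ^ D₀ := by
            refine pow_le_pow_right₀ hρ (le_trans ?_ h5)
            have h6 : k' ≤ k := by rw [hk']; exact tsub_le_self
            exact Finsupp.sum_le_sum_index h6 (fun j _ => monotone_id) (fun j _ => rfl)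
    have h4 : |((k j : ℕ) : ℝ)| ≤ D₀ := by
      rw [abs_of_nonneg (Nat.cast_nonneg _)]
      have h5 := (le_totalDegree hk).trans hD
      have h6 : k j ≤ k.sum fun _ e => e := by
        by_cases h0 : k j = 0
        · rw [h0]; exact Nat.zero_le _
        · exact Finset.single_le_sum (f := fun i => k i) (fun _ _ => Nat.zero_le _)
            (Finsupp.mem_support_iff.2 h0)
      exact_mod_cast h6.trans h5
    calc |f.coeff k| * |((k j : ℕ) : ℝ)| *
          |Finsupp.prod (k - Finsupp.single j 1) fun i e => y i ^ e|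
        ≤ (C * S) * D₀ * ρ ^ D₀ := by
          refine mul_le_mul (mul_le_mul (hC k) h4 (abs_nonneg _) hCS) h3 (abs_nonneg _) ?_
          positivity
      _ = D₀ * (C * S) * ρ ^ D₀ := by ring
  refine (Finset.sum_le_sum h2).trans (le_of_eq ?_)
  rw [Finset.sum_const, nsmul_eq_mul]

theorem card_supp_le {n D₀ : ℕ} (f : MvPolynomial (Fin n) ℝ) (hD : f.totalDegree ≤ D₀) :
    f.support.card ≤ (D₀ + 1) ^ n := by
  classical
  have h1 : f.support.card ≤ (Finset.univ : Finset (Fin n → Fin (D₀ + 1))).card := by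
    refine Finset.card_le_card_of_injOn (fun k j => (⟨min (k j) D₀, by omega⟩ : Fin (D₀ + 1)))
      (fun _ _ => Finset.mem_coe.2 (Finset.mem_univ _)) ?_
    intro k hk k' hk' h
    have hle : ∀ k ∈ f.support, ∀ j, k j ≤ D₀ := by
      intro k hk j
      have h5 := (le_totalDegree hk).trans hD
      refine le_trans ?_ h5
      by_cases h0 : k j = 0
      · rw [h0]; exact Nat.zero_le _
      · exact Finset.single_le_sum (f := fun i => k i) (fun _ _ => Nat.zero_le _)
          (Finsupp.mem_support_iff.2 h0)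
    ext j
    have h2 := congrArg Fin.val (congrFun h j)
    simp only at h2
    rw [min_eq_left (hle k (Finset.mem_coe.1 hk) j),
      min_eq_left (hle k' (Finset.mem_coe.1 hk') j)] at h2
    exact h2
  simpa using h1

/-- **Gradients on dilated natural boxes**, in natural units: `T` bounds the derivatives in the
direction `l` of the natural coordinates. -/
theorem nat_grad_dil (i K₀ : ℕ) : ∃ C : ℝ, 0 ≤ C ∧ ∃ K₁ : ℕ, ∀ (Φ : ℕ → PN) (g : ℕ → ℕ) (D : PN)
    (S T ρ : ℝ) (l : ℕ) (b : ℕ → ℝ), TriN Φ → (∀ j < i, (Φ j).totalDegree ≤ K₀) →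
    D.totalDegree ≤ K₀ → D.vars ⊆ range i → (∀ b, Bx g Φ i b → |eval b D| ≤ S) → 0 ≤ S →
    1 ≤ ρ → (∀ j < i, |b j - eval b (Φ j)| ≤ ρ / 2 ^ g j) → 0 ≤ T → (l < i → 2 ^ g l ≤ T) →
    (∀ j, l < j → j < i → 2 ^ g j * |eval b (pderiv l (Φ j))| ≤ T) →
    |eval b (pderiv l D)| ≤ C * S * ρ ^ K₁ * T := by
  classical
  set K₁ : ℕ := K₀ * (K₀ + 1) ^ (i + 1) with hK₁
  obtain ⟨C, hC0, hC⟩ := EXL.coeff_of_sup i K₁
  refine ⟨i * (((K₁ + 1) ^ i : ℕ) * (K₁ * C)), by positivity, K₁, ?_⟩
  intro Φ g D S T ρ l b hΦ hdeg hD hvars hS hS0 hρ hb hT0 hTl hTj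
  -- the polynomial in natural coordinates
  set ν := nuc g Φ with hν
  set E : PN := bind₁ ν D with hE
  have hEdeg : E.totalDegree ≤ K₁ := by
    refine (Dgb.deg_bind (B := (K₀ + 1) ^ (i + 1)) (fun k hk => ?_)).trans
      (Nat.mul_le_mul_right _ hD)
    have hk' := mem_range.1 (hvars hk)
    -- degrees of the natural coordinates
    have h2 : (ν k).totalDegree ≤ (K₀ + 1) ^ (k + 1) := by
      have hΦ' : TriN (fun j => if j < i then Φ j else 0) := by
        intro j
        show (if j < i then Φ j else 0).vars ⊆ _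
        split_ifs
        · exact hΦ j
        · simp
      have h3 := Dgb.deg_nuc (n := i) hΦ' (K := K₀) (fun j _ => by
        show (if j < i then Φ j else 0).totalDegree ≤ _
        split_ifs with hj
        · exact hdeg j hj
        · simp) g k (by omega)
      have h4 : ∀ k < i, nuc g (fun j => if j < i then Φ j else 0) k = ν k := by
        intro k
        induction k using Nat.strong_induction_on with
        | _ k ih =>
          intro hk
          rw [hν, AdxRow.nuc_eq hΦ, AdxRow.nuc_eq hΦ', if_pos hk]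
          congr 1
          refine bnd_congr fun l hl => ?_
          have := mem_range.1 (hΦ k hl)
          exact ih l this (by omega)
      rw [← h4 k hk']
      exact h3
    exact h2.trans (Nat.pow_le_pow_right (by omega) (by omega))
  have hEvars : E.vars ⊆ range i := by
    refine vars_bnd hvars fun k hk => ?_
    exact (AdxRow.nuc_vars hΦ g k).trans (range_subset_range.2 (by omega))
  have hEsup : ∀ a : ℕ → ℝ, (∀ j < i, |a j| ≤ 1) → |eval a E| ≤ S := by
    intro a ha
    rw [hE, AdxRow.evl_bnd]
    exact hS _ (EXL.bx_nuc hΦ g ha)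
  have hEco := hC E S hEvars hEdeg hEsup
  -- the curve
  set y : ℝ → Fin i → ℝ := fun s j =>
    (2 : ℝ) ^ g j * (Function.update b l s j - eval (Function.update b l s) (Φ j)) with hy
  set F : MvPolynomial (Fin i) ℝ := toF i E with hF
  have hval : ∀ s, eval (y s) F = eval (Function.update b l s) D := by
    intro s
    have h1 := EXL.eval_nat hΦ g D (Function.update b l s)
    rw [← h1, hF, ← T6.toF_eval hEvars]
  have hder1 : ∀ j : Fin i, HasDerivAt (fun s => y s j)
      ((2 : ℝ) ^ g j * ((if (j : ℕ) = l then 1 else 0) -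
        eval (Function.update b l (b l)) (pderiv l (Φ j)))) (b l) := by
    intro j
    have h1 : HasDerivAt (fun s => Function.update b l s (j : ℕ))
        (if (j : ℕ) = l then (1 : ℝ) else 0) (b l) := by
      by_cases hj : (j : ℕ) = l
      · subst hj
        simp only [Function.update_self, if_true]
        exact hasDerivAt_id' _
      · simp only [Function.update_of_ne hj, if_neg hj]
        exact hasDerivAt_const _ _
    exact (h1.sub (hasDerivAt_upd (Φ j) b l (b l))).const_mul _
  have hder := hasDerivAt_curve y _ (b l) hder1 F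
  have hder2 : HasDerivAt (fun s => eval (y s) F)
      (eval (Function.update b l (b l)) (pderiv l D)) (b l) := by
    simp only [hval]
    exact hasDerivAt_upd D b l (b l)
  have heq := hder2.unique hder
  rw [Function.update_eq_self] at heq
  rw [heq]
  -- the bound
  have hyb : y (b l) = fun j : Fin i => (2 : ℝ) ^ g j * (b j - eval b (Φ j)) := by
    rw [hy]
    simp only [Function.update_eq_self]
  have hy1 : ∀ j : Fin i, |y (b l) j| ≤ ρ := by
    intro j
    rw [hyb]
    simp only
    rw [abs_mul, abs_of_pos (by positivity : (0 : ℝ) < 2 ^ g j)]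
    have h1 := mul_le_mul_of_nonneg_left (hb j j.2) (by positivity : (0 : ℝ) ≤ 2 ^ g j)
    rwa [mul_div_cancel₀ _ (by positivity)] at h1
  have hFdeg : F.totalDegree ≤ K₁ := by
    have h3 := CmrRow.deg_aeval (K := 1)
      (θ := fun j : ℕ => if h : j < i then (X ⟨j, h⟩ : Pl i) else 0) (F := E)
      (fun j _ => by
        by_cases h : j < i
        · simp only [dif_pos h, totalDegree_X]
          exact le_rfl
        · simp only [dif_neg h, totalDegree_zero]
          exact Nat.zero_le _) hEdeg
    rw [mul_one] at h3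
    exact h3
  have hFco : ∀ k, |F.coeff k| ≤ C * S := by
    intro k
    rw [hF, T6.toF_coeff hEvars]
    exact hEco _
  have hCS : 0 ≤ C * S := mul_nonneg hC0 hS0
  refine (Finset.abs_sum_le_sum_abs _ _).trans ?_
  have hone : ∀ j : Fin i, |(2 : ℝ) ^ g j * ((if (j : ℕ) = l then 1 else 0) -
      eval b (pderiv l (Φ j))) * eval (y (b l)) (pderiv j F)| ≤
      T * (((K₁ + 1) ^ i : ℕ) * (K₁ * (C * S) * ρ ^ K₁)) := by
    intro j
    have hder0 : ∀ j : ℕ, j ≤ l → pderiv l (Φ j) = 0 := fun j hj =>
      pderiv_eq_zero_of_notMem_vars fun h => by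
        have := mem_range.1 (hΦ j h)
        omega
    rcases Nat.lt_or_ge (j : ℕ) l with hjl | hjl
    · rw [if_neg hjl.ne, hder0 j hjl.le, map_zero, sub_zero, mul_zero, zero_mul, abs_zero]
      positivity
    rw [abs_mul]
    refine mul_le_mul ?_ ?_ (abs_nonneg _) hT0
    · rw [abs_mul, abs_of_pos (by positivity : (0 : ℝ) < 2 ^ g j)]
      rcases hjl.eq_or_lt with h | h
      · rw [if_pos h.symm, hder0 j h.symm.le, map_zero, sub_zero, abs_one, mul_one, ← h]
        exact hTl (by rw [h]; exact j.2)
      · rw [if_neg h.ne', zero_sub, abs_neg]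
        exact hTj j h j.2
    · refine (pderiv_cube F hFdeg hFco hCS hρ hy1 j).trans ?_
      refine mul_le_mul_of_nonneg_right ?_ (by positivity)
      exact_mod_cast card_supp_le F hFdeg
  refine (Finset.sum_le_sum fun j _ => hone j).trans (le_of_eq ?_)
  rw [Finset.sum_const, Finset.card_univ, Fintype.card_fin, nsmul_eq_mul]
  push_cast
  ring

/-- **Gradients on natural boxes.** Only the coordinates `j` with `l ≤ j` matter for the
derivative in the direction `l`. -/
theorem nat_grad (i K₀ : ℕ) : ∃ C : ℝ, 0 ≤ C ∧ ∀ (Φ : ℕ → PN) (g : ℕ → ℕ) (D : PN) (S L : ℝ)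
    (N l : ℕ) (b : ℕ → ℝ), TriN Φ → (∀ j < i, (Φ j).totalDegree ≤ K₀) → D.totalDegree ≤ K₀ →
    D.vars ⊆ range i → (∀ b, Bx g Φ i b → |eval b D| ≤ S) → Bx g Φ i b → 0 ≤ L →
    (∀ j, l < j → j < i → |eval b (pderiv l (Φ j))| ≤ L) → (∀ j, l ≤ j → j < i → g j ≤ N) →
    |eval b (pderiv l D)| ≤ C * S * 2 ^ N * (1 + L) := by
  obtain ⟨C, hC, K₁, h⟩ := nat_grad_dil i K₀
  refine ⟨C, hC, ?_⟩
  intro Φ g D S L N l b hΦ hdeg hD hvars hS hb hL0 hL hg
  have hS0 : 0 ≤ S := (abs_nonneg _).trans (hS b hb)
  have h2N : (0 : ℝ) < 2 ^ N := by positivity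
  have h1 := h Φ g D S (2 ^ N * (1 + L)) 1 l b hΦ hdeg hD hvars hS hS0 le_rfl hb (by positivity)
    (fun hl => by
      have h2 : (2 : ℝ) ^ g l ≤ 2 ^ N := pow_le_pow_right₀ (by norm_num) (hg l le_rfl hl)
      nlinarith)
    (fun j h3 h4 => by
      have h2 : (2 : ℝ) ^ g j ≤ 2 ^ N := pow_le_pow_right₀ (by norm_num) (hg j h3.le h4)
      exact mul_le_mul h2 ((hL j h3 h4).trans (by linarith)) (abs_nonneg _) h2N.le)
  rw [one_pow, mul_one] at h1
  refine h1.trans (le_of_eq (by ring))

end Pool.STAT.NL
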