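import Pool.Agent.H74.STAT.NLab
import Pool.Agent.H74.STAT.NGrad

/-!
# New labels on top of the closed system

`LipC`: the gradients of the closed system of the level `v`, in natural units.

`chn_of_top`: the closed system of the level `v` and a closed label of the coordinate `i`, near to
the old label on the natural box, are a chain of two-sided labels (`ChN`).

`nd_chn`: a new label (`NDat.NewLab0`) of the system of a family is a chain of two-sided labels
for the ball of the level `v`, on an event of relative probability at least `η' / 2`.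
-/

set_option autoImplicit false

namespace Pool.STAT.NL

open Finset MvPolynomial
open Pool.Agent.H49.Ent Pool.Agent.H32.Dense Pool.STK Pool.KS3 Pool.KA Pool.KSAT Pool.K2S Pool.PB
open Pool.GEN Pool.STAT.CDat
open Pool.BFL (Pl CB Pb P2 MC alt)

variable {m J : ℕ}

/-- **The gradients of the closed system of the level `v`**, in natural units. -/
def LipC (F : Fam m J) (C : CDat F) (w₀ z v n e₀ : ℕ) (g : ℕ → ℕ → ℕ) (A : F.Ω → Prop) : Prop :=
  ∀ ω, A ω → ∀ j, 1 ≤ j → j ≤ n → ∀ b : ℕ → ℝ,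
    (∀ k < j, |b k - eval b (C.Ph w₀ z v ω k)| ≤ 2 / 2 ^ g0 w₀ z g v k) →
    ∀ l, 1 ≤ l → l < j → |eval b (pderiv l (C.Ph w₀ z v ω j))| ≤ 2 ^ (e₀ + nlp (g v) l j)

/-- The derivatives of renamed polynomials. -/
theorem pderiv_ren {e : ℕ → Fin m} {i l : ℕ} {p : PN} (hp : p.vars ⊆ range i)
    (he : ∀ j < i, 1 ≤ j → e j = e l → j = l) (hl : 1 ≤ l) (b : Option (Fin m) → ℝ) :
    eval b (pderiv (some (e l)) (ren e p)) = eval (fun j => b (nu e j)) (pderiv l p) := by
  classical
  have hnl : nu e l = some (e l) := if_neg (by omega)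
  have h1 := hasDerivAt_upd (ren e p) b (some (e l)) (b (some (e l)))
  have h2 := hasDerivAt_upd p (fun j => b (nu e j)) l (b (some (e l)))
  have h3 : (fun s => eval (Function.update b (some (e l)) s) (ren e p)) =
      fun s => eval (Function.update (fun j => b (nu e j)) l s) p := by
    funext s
    rw [eval_ren]
    refine eval_congr_vars fun j hj => ?_
    have hj' := mem_range.1 (hp hj)
    by_cases hjl : j = l
    · rw [hjl, hnl, Function.update_self, Function.update_self]
    · rw [Function.update_of_ne hjl]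
      refine Function.update_of_ne ?_ _ _
      unfold nu
      split_ifs with h0
      · simp
      · intro h
        exact hjl (he j hj' (by omega) (Option.some.inj h))
  rw [h3] at h1
  have h4 := h1.unique h2
  have e1 : Function.update b (some (e l)) (b (some (e l))) = b := Function.update_eq_self _ _
  have e2 : Function.update (fun j => b (nu e j)) l (b (some (e l))) = fun j => b (nu e j) := by
    have : b (some (e l)) = (fun j => b (nu e j)) l := by
      show b (some (e l)) = b (nu e l)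
      rw [hnl]
    rw [this]
    exact Function.update_eq_self _ _
  rw [e1, e2] at h4
  exact h4

theorem sup_Icc_split {g : ℕ → ℕ} {l i : ℕ} (h : l < i) :
    (Finset.Icc l i).sup g = max ((Finset.Icc l (i - 1)).sup g) (g i) := by
  have : Finset.Icc l i = Finset.Icc l (i - 1) ∪ {i} := by
    ext j
    simp only [Finset.mem_Icc, Finset.mem_union, Finset.mem_singleton]
    omega
  rw [this, Finset.sup_union, Finset.sup_singleton]

theorem sup_Icc_succ (g : ℕ → ℕ) (l i : ℕ) :
    (Finset.Icc l i).sup (fun k => g (k + 1)) = (Finset.Icc (l + 1) (i + 1)).sup g := by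
  refine le_antisymm (Finset.sup_le fun j hj => ?_) (Finset.sup_le fun j hj => ?_)
  · rw [Finset.mem_Icc] at hj
    exact Finset.le_sup (f := g) (Finset.mem_Icc.2 ⟨by omega, by omega⟩)
  · rw [Finset.mem_Icc] at hj
    have h1 : g j = (fun k => g (k + 1)) (j - 1) := by
      simp only
      congr 1
      omega
    rw [h1]
    exact Finset.le_sup (f := fun k => g (k + 1)) (Finset.mem_Icc.2 ⟨by omega, by omega⟩)

/-- **The closed system with a new label on top.** -/
theorem chn_of_top (n K K'' i : ℕ) (hi : 1 ≤ i) (hin : i ≤ n) : ∃ c₁ : ℕ, ∀ {m J : ℕ}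
    (F : Fam m J) (C : CDat F) (e : ℕ → Fin m) (w₀ z M v P e₀ e₁ s : ℕ) (g : ℕ → ℕ → ℕ)
    (C₁ : ℝ) (A B : F.Ω → Prop), C.Cnd e n K w₀ z M g C₁ A → v ≤ M → w₀ + v * z ≤ J →
    LipC F C w₀ z v i e₀ g A → Sub B A →
    (∀ j j', 1 ≤ j → j ≤ n → 1 ≤ j' → j' ≤ n → e j = e j' → j = j') →
    (∃ (V : Type) (y : PtT F → V) (y' : LnT F → V) (G : V → PN),
      (∀ x, (G x).totalDegree ≤ K'') ∧ (∀ x, (G x).vars ⊆ range i) ∧
      (∀ ω, B ω → y (ptr F J ω) = y' (slam F (w₀ + v * z) ω)) ∧
      (∀ ω, B ω → |F.x ω (e i) - eval (cx F e ω) (G (y' (slam F (w₀ + v * z) ω)))| ≤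
        1 / 2 ^ P) ∧
      ∀ ω, B ω → ∀ b : ℕ → ℝ, Bx (g0 w₀ z g v) (C.Ph w₀ z v ω) i b →
        |eval b (G (y' (slam F (w₀ + v * z) ω))) - eval b (C.Ph w₀ z v ω i)| ≤
          2 ^ s / 2 ^ g v i) →
    e₀ + (P - g v i) + s + c₁ ≤ e₁ →
    ChN F (fun l => e (l + 1)) i (fun _ => max K K'') (w₀ + v * z) (w₀ + v * z) e₁
      (fun l => if l = i - 1 then P else g v (l + 1)) B := by
  classical
  obtain ⟨C₀, hC₀, K₁, hgrad⟩ := nat_grad_dil i (max K K'')
  obtain ⟨c', hc'⟩ : ∃ c' : ℕ, C₀ ≤ 2 ^ c' := by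
    obtain ⟨k, hk⟩ := pow_unbounded_of_one_lt C₀ (show (1 : ℝ) < 2 by norm_num)
    exact ⟨k, hk.le⟩
  refine ⟨c' + K₁ + 1, ?_⟩
  intro m J F C e w₀ z M v P e₀ e₁ s g C₁ A B hC hvM hwJ hlip hBA hinj hlab he₁
  obtain ⟨V, y, y', G, hGdeg, hGvars, hGcls, hGpos, hGbox⟩ := hlab
  set w := w₀ + v * z with hw
  -- the lower labels
  have hlow : ∀ x : C.V v, ∀ j, 1 ≤ j → j ≤ n →
      (C.G v x j).totalDegree ≤ K ∧ (C.G v x j).vars ⊆ range j := fun x j h1 h2 =>
    ⟨hC.deg v hvM x j h1 h2, hC.tri v hvM x j h1 h2⟩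
  have hPh : ∀ ω j, 1 ≤ j → C.Ph w₀ z v ω j = C.G v (C.li v (slam F w ω)) j := fun ω j hj =>
    if_neg (by omega)
  set G' : PtT F → ℕ → MvPolynomial (Option (Fin m)) ℝ := fun x l =>
    if l = i - 1 then ren e (G (y x)) else if l < i - 1 then ren e (C.G v (C.pt v x) (l + 1))
      else 0 with hG'
  set H' : LnT F → ℕ → MvPolynomial (Option (Fin m)) ℝ := fun x l =>
    if l = i - 1 then ren e (G (y' x)) else if l < i - 1 then ren e (C.G v (C.li v x) (l + 1))
      else 0 with hH'
  have hGH : ∀ ω, B ω → G' (ptr F J ω) = H' (slam F w ω) := by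
    intro ω hω
    funext l
    simp only [hG', hH']
    rw [hGcls ω hω, hC.cls v hvM ω (hBA ω hω)]
  have hT : ∀ ω, |F.t ω - (F.T1 w ω : ℝ) / 2 ^ w| ≤ 1 / 2 ^ w := by
    intro ω
    have h1 := T1_real F hwJ ω
    have h2 : (0 : ℝ) < 2 ^ w := by positivity
    have e1 : F.t ω - (F.T1 w ω : ℝ) / 2 ^ w = (2 ^ w * F.t ω - F.T1 w ω) / 2 ^ w := by
      field_simp
    rw [e1, abs_div, abs_of_pos h2]
    refine div_le_div_of_nonneg_right ?_ h2.le
    rw [abs_le]
    constructor <;> linarith [h1.1, h1.2]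
  -- from natural boxes to the boxes of the system
  have hbox : ∀ ω, B ω → ∀ l, l ≤ i - 1 → ∀ b : Option (Fin m) → ℝ,
      NBx (fun l => e (l + 1)) (G' (ptr F J ω)) (fun l => if l = i - 1 then P else g v (l + 1))
        w (F.t ω) l b → ∀ k < l + 1,
      |b (nu e k) - eval (fun j => b (nu e j)) (C.Ph w₀ z v ω k)| ≤ 2 / 2 ^ g0 w₀ z g v k := by
    intro ω hω l hl b hb k hk
    rcases Nat.eq_zero_or_pos k with rfl | hk0
    · have e1 : C.Ph w₀ z v ω 0 = MvPolynomial.C ((F.T1 w ω : ℝ) / 2 ^ w) := if_pos rfl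
      have e2 : g0 w₀ z g v 0 = w := if_pos rfl
      have e3 : nu e 0 = none := if_pos rfl
      rw [e1, e2, e3, eval_C]
      calc |b none - (F.T1 w ω : ℝ) / 2 ^ w|
          = |(b none - F.t ω) + (F.t ω - (F.T1 w ω : ℝ) / 2 ^ w)| := by congr 1; ring
        _ ≤ |b none - F.t ω| + |F.t ω - (F.T1 w ω : ℝ) / 2 ^ w| := abs_add_le _ _
        _ ≤ 1 / 2 ^ w + 1 / 2 ^ w := add_le_add hb.1 (hT ω)
        _ = 2 / 2 ^ w := by ring
    · have h1 := hb.2 (k - 1) (by omega)
      have e1 : k - 1 + 1 = k := by omega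
      have e2 : nu e k = some (e k) := if_neg (by omega)
      have e3 : g0 w₀ z g v k = g v k := if_neg (by omega)
      have e4 : ¬ (k - 1 = i - 1) := by omega
      have e5 : k - 1 < i - 1 := by omega
      simp only [hG', if_neg e4, if_pos e5, e1] at h1
      rw [eval_ren, hC.cls v hvM ω (hBA ω hω), ← hPh ω k hk0] at h1
      rw [e2, e3]
      refine h1.trans (div_le_div_of_nonneg_right (by norm_num) (by positivity))
  refine ⟨G', H', fun x l => ?_, fun x l => ?_, fun x l => ?_, fun x l => ?_,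
    fun ω hω l hl => ?_, fun ω hω l hl b hb => ?_, fun ω hω l hl b hb l₁ hl₁ => ?_⟩
  · simp only [hG']
    split_ifs with h1 h2
    · exact (ren_deg e _).trans ((hGdeg _).trans (le_max_right _ _))
    · exact (ren_deg e _).trans ((hlow _ (l + 1) (by omega) (by omega)).1.trans
        (le_max_left _ _))
    · simp
  · simp only [hH']
    split_ifs with h1 h2
    · exact (ren_deg e _).trans ((hGdeg _).trans (le_max_right _ _))
    · exact (ren_deg e _).trans ((hlow _ (l + 1) (by omega) (by omega)).1.trans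
        (le_max_left _ _))
    · simp
  · simp only [hG']
    split_ifs with h1 h2
    · rw [h1]
      exact ren_dep e (hGvars _)
    · exact ren_dep (i := l + 1) e (hlow _ (l + 1) (by omega) (by omega)).2
    · intro b b' _ _
      simp
  · simp only [hH']
    split_ifs with h1 h2
    · rw [h1]
      exact ren_dep e (hGvars _)
    · exact ren_dep (i := l + 1) e (hlow _ (l + 1) (by omega) (by omega)).2
    · intro b b' _ _
      simp
  · -- positions
    rw [hGH ω hω]
    simp only [hH']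
    by_cases h1 : l = i - 1
    · rw [if_pos h1, if_pos h1, eval_ren_bt]
      have e4 : l + 1 = i := by omega
      rw [e4]
      exact hGpos ω hω
    · rw [if_neg h1, if_neg h1, if_pos (by omega), eval_ren_bt, ← hPh ω (l + 1) (by omega)]
      exact hC.pos v hvM ω (hBA ω hω) (l + 1) (by omega) (by omega)
  · rw [hGH ω hω, sub_self, abs_zero]
    positivity
  · -- gradients
    have hb' := hbox ω hω l (by omega) b hb
    have hnlp : ∀ l₂ < i - 1, nlp (fun l => if l = i - 1 then P else g v (l + 1)) l₁ l₂ =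
        nlp (g v) (l₁ + 1) (l₂ + 1) := by
      intro l₂ hl₂
      unfold nlp
      rw [← sup_Icc_succ]
      have e1 : (Finset.Icc l₁ l₂).sup (fun l => if l = i - 1 then P else g v (l + 1)) =
          (Finset.Icc l₁ l₂).sup (fun k => g v (k + 1)) := by
        refine Finset.sup_congr rfl fun j hj => ?_
        rw [Finset.mem_Icc] at hj
        rw [if_neg (by omega)]
      rw [e1]
      simp only
      rw [if_neg (by omega)]
    have hderlow : ∀ j, l₁ + 1 < j → j ≤ l + 1 → j ≤ n →
        |eval (fun j => b (nu e j)) (pderiv (l₁ + 1) (C.Ph w₀ z v ω j))| ≤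
          2 ^ (e₀ + nlp (g v) (l₁ + 1) j) := fun j h1 h2 _ =>
      hlip ω (hBA ω hω) j (by omega) (by omega) _ (fun k hk => hb' k (by omega)) (l₁ + 1)
        (by omega) h1
    by_cases h1 : l = i - 1
    · -- the top label
      have e0 : G' (ptr F J ω) l = ren e (G (y (ptr F J ω))) := by
        simp only [hG']
        rw [if_pos h1]
      have he' : ∀ j < i, 1 ≤ j → e j = e (l₁ + 1) → j = l₁ + 1 := fun j hj hj1 h =>
        hinj j (l₁ + 1) hj1 (by omega) (by omega) (by omega) h
      show |eval b (pderiv (some (e (l₁ + 1))) (G' (ptr F J ω) l))| ≤ _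
      rw [e0, pderiv_ren (hGvars _) he' (by omega) b, hGcls ω hω]
      set b' : ℕ → ℝ := fun j => b (nu e j) with hb'def
      set Φ : ℕ → PN := fun j => if j ≤ n then C.Ph w₀ z v ω j else 0 with hΦ
      have hΦj : ∀ j ≤ n, Φ j = C.Ph w₀ z v ω j := fun j hj => if_pos hj
      have hPhdeg : ∀ j ≤ n, (C.Ph w₀ z v ω j).totalDegree ≤ K ∧
          (C.Ph w₀ z v ω j).vars ⊆ range j := by
        intro j hj
        rcases Nat.eq_zero_or_pos j with rfl | hj0
        · have e1 : C.Ph w₀ z v ω 0 = MvPolynomial.C ((F.T1 w ω : ℝ) / 2 ^ w) := if_pos rfl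
          rw [e1]
          simp
        · rw [hPh ω j hj0]
          exact hlow _ j hj0 hj
      have hΦtri : TriN Φ := by
        intro j
        show (if j ≤ n then C.Ph w₀ z v ω j else 0).vars ⊆ _
        split_ifs with hj
        · exact (hPhdeg j hj).2
        · simp
      set D : PN := G (y' (slam F w ω)) - C.Ph w₀ z v ω i with hD
      have hDdeg : D.totalDegree ≤ max K K'' :=
        (totalDegree_sub _ _).trans (max_le ((hGdeg _).trans (le_max_right _ _))
          ((hPhdeg i hin).1.trans (le_max_left _ _)))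
      have hDvars : D.vars ⊆ range i := AdxRow.vars_sub_le (hGvars _) (hPhdeg i hin).2
      have hBx : ∀ b, Bx (g0 w₀ z g v) Φ i b → |eval b D| ≤ 2 ^ s / 2 ^ g v i := by
        intro b hb
        rw [hD, map_sub]
        refine hGbox ω hω b fun j hj => ?_
        have := hb j hj
        rwa [hΦj j (by omega)] at this
      have hTle : ∀ j, l₁ + 1 ≤ j → j < i → g v j ≤ (Finset.Icc (l₁ + 1) (i - 1)).sup (g v) :=
        fun j h2 h3 => Finset.le_sup (f := g v) (Finset.mem_Icc.2 ⟨h2, by omega⟩)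
      have hmain := hgrad Φ (g0 w₀ z g v) D (2 ^ s / 2 ^ g v i)
        (2 ^ (e₀ + (Finset.Icc (l₁ + 1) (i - 1)).sup (g v))) 2 (l₁ + 1) b' hΦtri
        (fun j hj => by
          rw [hΦj j (by omega)]
          exact (hPhdeg j (by omega)).1.trans (le_max_left _ _)) hDdeg hDvars hBx
        (by positivity) (by norm_num)
        (fun j hj => by
          rw [hΦj j (by omega)]
          exact hb' j (by omega)) (by positivity)
        (fun hl => by
          have e3 : g0 w₀ z g v (l₁ + 1) = g v (l₁ + 1) := if_neg (by omega)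
          rw [e3]
          exact pow_le_pow_right₀ (by norm_num) ((hTle (l₁ + 1) le_rfl hl).trans (by omega)))
        (fun j h2 h3 => by
          have e3 : g0 w₀ z g v j = g v j := if_neg (by omega)
          rw [e3, hΦj j (by omega)]
          have h4 := hderlow j h2 (by omega) (by omega)
          have h5 : (Finset.Icc (l₁ + 1) j).sup (g v) ≤
              (Finset.Icc (l₁ + 1) (i - 1)).sup (g v) :=
            Finset.sup_mono (Finset.Icc_subset_Icc le_rfl (by omega))
          have h6 : g v j ≤ (Finset.Icc (l₁ + 1) j).sup (g v) :=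
            Finset.le_sup (f := g v) (Finset.mem_Icc.2 ⟨by omega, le_rfl⟩)
          calc (2 : ℝ) ^ g v j * |eval b' (pderiv (l₁ + 1) (C.Ph w₀ z v ω j))|
              ≤ 2 ^ g v j * 2 ^ (e₀ + nlp (g v) (l₁ + 1) j) :=
                mul_le_mul_of_nonneg_left h4 (by positivity)
            _ = 2 ^ (g v j + (e₀ + nlp (g v) (l₁ + 1) j)) := by rw [← pow_add]
            _ ≤ _ := by
                refine pow_le_pow_right₀ (by norm_num) ?_
                unfold nlp
                omega)
      have hold := hderlow i (by omega) (by omega) hin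
      have hsplit : pderiv (l₁ + 1) (G (y' (slam F w ω))) =
          pderiv (l₁ + 1) D + pderiv (l₁ + 1) (C.Ph w₀ z v ω i) := by
        rw [hD, map_sub]
        ring
      rw [hsplit, map_add]
      have hexp1 : (Finset.Icc (l₁ + 1) (i - 1)).sup (g v) ≤
          nlp (g v) (l₁ + 1) i + g v i := by
        unfold nlp
        rw [sup_Icc_split (g := g v) (by omega : l₁ + 1 < i)]
        omega
      have hexp2 : nlp (g v) (l₁ + 1) i ≤
          nlp (fun l => if l = i - 1 then P else g v (l + 1)) l₁ l + (P - g v i) := by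
        unfold nlp
        rw [sup_Icc_split (g := g v) (by omega : l₁ + 1 < i), h1,
          sup_Icc_split (g := fun l => if l = i - 1 then P else g v (l + 1))
            (by omega : l₁ < i - 1)]
        simp only [if_true]
        have e1 : (Finset.Icc l₁ (i - 1 - 1)).sup (fun l => if l = i - 1 then P else g v (l + 1)) =
            (Finset.Icc l₁ (i - 1 - 1)).sup (fun k => g v (k + 1)) := by
          refine Finset.sup_congr rfl fun j hj => ?_
          rw [Finset.mem_Icc] at hj
          rw [if_neg (by omega)]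
        rw [e1, sup_Icc_succ]
        have e2 : i - 1 - 1 + 1 = i - 1 := by omega
        rw [e2]
        omega
      have hp1 : (0 : ℝ) < 2 ^ g v i := by positivity
      have hD1 : |eval b' (pderiv (l₁ + 1) D)| ≤
          2 ^ (e₀ + nlp (g v) (l₁ + 1) i + (s + c' + K₁)) := by
        refine hmain.trans ?_
        have h2 : (2 : ℝ) ^ (e₀ + (Finset.Icc (l₁ + 1) (i - 1)).sup (g v)) ≤
            2 ^ (e₀ + nlp (g v) (l₁ + 1) i) * 2 ^ g v i := by
          rw [← pow_add]
          exact pow_le_pow_right₀ (by norm_num) (by omega)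
        calc C₀ * (2 ^ s / 2 ^ g v i) * 2 ^ K₁ *
              2 ^ (e₀ + (Finset.Icc (l₁ + 1) (i - 1)).sup (g v))
            ≤ 2 ^ c' * (2 ^ s / 2 ^ g v i) * 2 ^ K₁ *
              (2 ^ (e₀ + nlp (g v) (l₁ + 1) i) * 2 ^ g v i) := by
              refine mul_le_mul ?_ h2 (by positivity) (by positivity)
              refine mul_le_mul_of_nonneg_right ?_ (by positivity)
              exact mul_le_mul_of_nonneg_right hc' (by positivity)
          _ = 2 ^ c' * 2 ^ s * 2 ^ K₁ * 2 ^ (e₀ + nlp (g v) (l₁ + 1) i) := by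
              field_simp
          _ = 2 ^ (e₀ + nlp (g v) (l₁ + 1) i + (s + c' + K₁)) := by
              rw [← pow_add, ← pow_add, ← pow_add]
              congr 1
              omega
      calc |eval b' (pderiv (l₁ + 1) D) + eval b' (pderiv (l₁ + 1) (C.Ph w₀ z v ω i))|
          ≤ |eval b' (pderiv (l₁ + 1) D)| + |eval b' (pderiv (l₁ + 1) (C.Ph w₀ z v ω i))| :=
            abs_add_le _ _
        _ ≤ 2 ^ (e₀ + nlp (g v) (l₁ + 1) i + (s + c' + K₁)) +
            2 ^ (e₀ + nlp (g v) (l₁ + 1) i) := add_le_add hD1 hold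
        _ ≤ 2 ^ (e₀ + nlp (g v) (l₁ + 1) i + (s + c' + K₁)) +
            2 ^ (e₀ + nlp (g v) (l₁ + 1) i + (s + c' + K₁)) :=
            add_le_add le_rfl (pow_le_pow_right₀ (by norm_num) (by omega))
        _ = 2 ^ (e₀ + nlp (g v) (l₁ + 1) i + (s + c' + K₁) + 1) := by
            rw [pow_succ]
            ring
        _ ≤ _ := pow_le_pow_right₀ (by norm_num) (by omega)
    · -- the lower labels
      have h2 : l < i - 1 := by omega
      have e0 : G' (ptr F J ω) l = ren e (C.Ph w₀ z v ω (l + 1)) := by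
        simp only [hG']
        rw [if_neg h1, if_pos h2, hC.cls v hvM ω (hBA ω hω), hPh ω (l + 1) (by omega)]
      have hvl : (C.Ph w₀ z v ω (l + 1)).vars ⊆ range (l + 1) := by
        rw [hPh ω (l + 1) (by omega)]
        exact (hlow _ (l + 1) (by omega) (by omega)).2
      show |eval b (pderiv (some (e (l₁ + 1))) (G' (ptr F J ω) l))| ≤ _
      rw [e0, pderiv_ren hvl (fun j hj hj1 h => hinj j (l₁ + 1) hj1 (by omega) (by omega)
        (by omega) h) (by omega) b, hnlp l h2]
      refine (hderlow (l + 1) (by omega) le_rfl (by omega)).trans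
        (pow_le_pow_right₀ (by norm_num) (by omega))

/-- **(c2)** A new label of the system of a family is a chain of two-sided labels for the ball of
the level `v`: the sides are those of the system, the precision of `e i` is `P`; the gradients
grow by the gain and by the distance to the old label. -/
theorem nd_chn (n K K' i : ℕ) (hi : 1 ≤ i) (hin : i ≤ n) : ∃ (K'' c₀ : ℕ), ∀ {m J : ℕ}
    (F : Fam m J) (C : CDat F) (e : ℕ → Fin m) (w₀ z M v v' A' P e₀ e₁ : ℕ) (g : ℕ → ℕ → ℕ)
    (σ : ℕ → ℝ) (κ C₁ C₆ η' : ℝ) (A B : F.Ω → Prop) (q : F.Ω → ℝ),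
    C.Cnd e n K w₀ z M g C₁ A → LipC F C w₀ z v i e₀ g A → Sub B A →
    (∀ j j', 1 ≤ j → j ≤ n → 1 ≤ j' → j' ≤ n → e j = e j' → j = j') →
    (∀ ω, q ω = Pool.Agent.H49.Ent.cond F.p B True ω) →
    (C.nd e n w₀ z M g).Ok0 n K J w₀ z M σ κ C₁ q → v ≤ v' → v' ≤ M → 0 ≤ C₆ →
    (C.nd e n w₀ z M g).NewLab0 J w₀ z i v v' A' K' C₆ η' q → P + c₀ ≤ g v i + A' * z →
    e₀ + A' * z + ⌈2 * (C₆ * z)⌉₊ + c₀ ≤ e₁ →
    ∃ B' : F.Ω → Prop, Sub B' B ∧ η' / 2 * Pe F.p B ≤ Pe F.p B' ∧
      ChN F (fun l => e (l + 1)) i (fun _ => K'') (w₀ + v * z) (w₀ + v * z) e₁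
        (fun l => if l = i - 1 then P else g v (l + 1)) B' := by
  classical
  obtain ⟨K₂, C₇, hC₇, hcore⟩ := nd_core n K K' i hin
  obtain ⟨c₂, hc₂⟩ : ∃ c₂ : ℕ, C₇ ≤ 2 ^ c₂ := by
    obtain ⟨k, hk⟩ := pow_unbounded_of_one_lt C₇ (show (1 : ℝ) < 2 by norm_num)
    exact ⟨k, hk.le⟩
  obtain ⟨c₁, htop⟩ := chn_of_top n K K₂ i hi hin
  refine ⟨max K K₂, 2 * c₂ + c₁, ?_⟩
  intro m J F C e w₀ z M v v' A' P e₀ e₁ g σ κ C₁ C₆ η' A B q hC hlip hBA hinj hq hOk hvv hvM
    hC₆ hNL hPc he₁
  obtain ⟨B', hB'B, hPB, V, y, y', G, pr, hdeg, hvars, hcls, _, hpos, hbox⟩ :=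
    hcore F C (cx F e) w₀ z M v v' A' g σ κ C₁ C₆ η' A B q hC.toX hBA hq hOk hvv hvM hC₆ hNL
  have hwJ : w₀ + v * z ≤ J := by
    have h1 := hOk.top
    have h2 : v * z ≤ (M + 1) * z := Nat.mul_le_mul_right z (by omega)
    omega
  have e3 : g0 w₀ z g v i = g v i := if_neg (by omega)
  have e5 : ∀ ω, cx F e ω i = F.x ω (e i) := fun ω => if_neg (by omega)
  refine ⟨B', hB'B, hPB, htop F C e w₀ z M v P e₀ e₁ (c₂ + ⌈2 * (C₆ * z)⌉₊) g C₁ A B' hC
    (hvv.trans hvM) hwJ hlip (fun ω hω => hBA ω (hB'B ω hω)) hinj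
    ⟨V, y, y', G, hdeg, hvars, hcls, fun ω hω => ?_, fun ω hω b hb => ?_⟩ (by omega)⟩
  · have h1 := hpos ω hω
    rw [e3, e5] at h1
    refine h1.trans ?_
    rw [div_le_div_iff₀ (by positivity) (by positivity), one_mul]
    calc C₇ * 2 ^ P ≤ 2 ^ c₂ * 2 ^ P := mul_le_mul_of_nonneg_right hc₂ (by positivity)
      _ = 2 ^ (P + c₂) := by rw [← pow_add, add_comm]
      _ ≤ 2 ^ (g v i + A' * z) := pow_le_pow_right₀ (by norm_num) (by omega)
  · have h1 := hbox ω hω b hb
    rw [e3] at h1
    refine h1.trans (div_le_div_of_nonneg_right ?_ (by positivity))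
    rw [pow_add]
    refine mul_le_mul hc₂ ?_ (Real.exp_pos _).le (by positivity)
    have hx : 0 ≤ C₆ * z := mul_nonneg hC₆ (Nat.cast_nonneg _)
    have h2 : Real.exp (C₆ * z) ≤ Real.exp (⌈2 * (C₆ * z)⌉₊ * Real.log 2) := by
      refine Real.exp_le_exp.2 ?_
      have h3 : 2 * (C₆ * z) ≤ ⌈2 * (C₆ * z)⌉₊ := Nat.le_ceil _
      have h4 : (0.6931471803 : ℝ) < Real.log 2 := Real.log_two_gt_d9
      have h5 : 2 * (C₆ * z) * Real.log 2 ≤ ⌈2 * (C₆ * z)⌉₊ * Real.log 2 :=
        mul_le_mul_of_nonneg_right h3 (by linarith)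
      nlinarith
    refine h2.trans (le_of_eq ?_)
    rw [← Real.log_pow, Real.exp_log (by positivity)]

end Pool.STAT.NL
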