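import Pool.Agent.H87.STAT.Exl
import Pool.Agent.H64.STAT.Fam0
import Pool.Agent.H80.GEN.Chn

/-!
# New labels of a system over a family (row 333, (c2))

`CLb F c j K w P A`: an exactly closed label of the coordinate `c j` over the time and the
coordinates `c l`, `l < j`: a value `z` of the point which is a value `z'` of the line and of the
window of length `2 ^ (-w)`, and a polynomial of the value; the precision is `2 ^ (-P)`.

`nd_core`, `nd_clb`: a new label (`NDat.NewLab0`) of the system of a family is a closed label of the family,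
on an event of relative probability at least `η' / 2`.
-/

set_option autoImplicit false

namespace Pool.GEN

open Finset Real MvPolynomial
open Pool.Agent.H49.Ent Pool.Agent.H32.Dense Pool.STK Pool.KA Pool.KSAT Pool.K2S Pool.PB Pool.S6C

variable {m J : ℕ}

/-- **Exactly closed labels** of `c j` over the time and `c l`, `l < j`. No velocity, no box. -/
def CLb (F : Fam m J) (c : ℕ → Fin m) (j K w P : ℕ) (A : F.Ω → Prop) : Prop :=
  ∃ (V : Type) (z : PtT F → V) (z' : LnT F → V) (G : V → MvPolynomial (Option (Fin m)) ℝ),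
    (∀ v, (G v).totalDegree ≤ K) ∧ (∀ v, DepC c j (G v)) ∧
    (∀ ω, A ω → z (ptr F J ω) = z' (slam F w ω)) ∧
    ∀ ω, A ω → |F.x ω (c j) - eval (bt F ω) (G (z' (slam F w ω)))| ≤ 1 / 2 ^ P

theorem CLb.hered (F : Fam m J) (c : ℕ → Fin m) (j K w P : ℕ) : Hered (CLb F c j K w P) := by
  rintro A B hB ⟨V, z, z', G, h1, h2, h3, h4⟩
  exact ⟨V, z, z', G, h1, h2, fun ω hω => h3 ω (hB ω hω), fun ω hω => h4 ω (hB ω hω)⟩

theorem CLb.mono {F : Fam m J} {c : ℕ → Fin m} {j K K' w w' P P' : ℕ} {A : F.Ω → Prop}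
    (h : CLb F c j K w P A) (hK : K ≤ K') (hw : w ≤ w') (hw' : w' ≤ J) (hP : P' ≤ P) :
    CLb F c j K' w' P' A := by
  obtain ⟨V, z, z', G, h1, h2, h3, h4⟩ := h
  have e : ∀ ω, z' ((slam F w' ω).1, (slam F w' ω).2.1, (slam F w' ω).2.2 / 2 ^ (w' - w)) =
      z' (slam F w ω) := fun ω => by rw [← slam_coarse F hw hw' ω]
  refine ⟨V, z, fun s => z' (s.1, s.2.1, s.2.2 / 2 ^ (w' - w)), G, fun v => (h1 v).trans hK, h2,
    fun ω hω => (h3 ω hω).trans (e ω).symm, fun ω hω => ?_⟩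
  simp only [e]
  exact (h4 ω hω).trans (inv_mono hP)

/-- Labels of 54's form. -/
theorem Lb.clb {F : Fam m J} {c : ℕ → Fin m} {j K e w ρ P q : ℕ} {A : F.Ω → Prop} (hq : q ≤ J)
    (h : Lb F ((range j).image c) (c j) K e q w ρ P A) : CLb F c j K w P A := by
  classical
  obtain ⟨V, z, z', G, h1⟩ := h
  obtain ⟨y, h2⟩ := h1.res hq
  refine ⟨V, y, z', G, h2.deg, fun v b b' hn hb => ?_, h2.cls, h2.pos⟩
  refine h2.dep _ b b' hn fun k hk => ?_
  obtain ⟨l, hl, rfl⟩ := mem_image.1 hk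
  exact hb l (mem_range.1 hl)

end Pool.GEN

namespace Pool.STAT.NL

open Finset MvPolynomial
open Pool.Agent.H49.Ent Pool.Agent.H32.Dense Pool.STK Pool.KS3 Pool.KA Pool.KSAT Pool.K2S Pool.PB
open Pool.GEN Pool.STAT.CDat
open Pool.BFL (Pl CB Pb P2 MC alt)

variable {m J : ℕ}

/-! ### Renaming -/

/-- The number `0` is the time, the number `j ≥ 1` is the coordinate `e j`. -/
def nu (e : ℕ → Fin m) (j : ℕ) : Option (Fin m) := if j = 0 then none else some (e j)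

/-- The polynomials of a system as polynomials of the time and the coordinates of the family. -/
noncomputable def ren (e : ℕ → Fin m) : PN →ₐ[ℝ] MvPolynomial (Option (Fin m)) ℝ :=
  rename (nu e)

theorem eval_ren (e : ℕ → Fin m) (b : Option (Fin m) → ℝ) (p : PN) :
    eval b (ren e p) = eval (fun j => b (nu e j)) p := by
  unfold ren
  rw [eval_rename]
  rfl

theorem eval_ren_bt (F : Fam m J) (e : ℕ → Fin m) (ω : F.Ω) (p : PN) :
    eval (bt F ω) (ren e p) = eval (cx F e ω) p := by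
  rw [eval_ren]
  congr 2
  funext j
  unfold nu cx
  split_ifs <;> rfl

theorem ren_deg (e : ℕ → Fin m) (p : PN) :
    (ren e p).totalDegree ≤ p.totalDegree := totalDegree_rename_le _ _

/-- The value of a polynomial depends on its variables only. -/
theorem eval_congr_vars {p : PN} {b b' : ℕ → ℝ} (h : ∀ j ∈ p.vars, b j = b' j) :
    eval b p = eval b' p := eval₂Hom_congr' rfl (fun i hi _ => h i hi) rfl

theorem ren_dep {i : ℕ} (e : ℕ → Fin m) {p : PN} (hp : p.vars ⊆ range i) :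
    DepC (fun l => e (l + 1)) (i - 1) (ren e p) := by
  intro b b' h0 h1
  rw [eval_ren, eval_ren]
  refine eval_congr_vars (fun j hj => ?_)
  have hj' := mem_range.1 (hp hj)
  unfold nu
  by_cases h : j = 0
  · rw [if_pos h]
    exact h0
  · rw [if_neg h]
    have h2 := h1 (j - 1) (by omega)
    have h3 : j - 1 + 1 = j := by omega
    simp only [h3] at h2
    exact h2

/-- **(c2), abstract positions.** A new label of the system is an exactly closed label, on an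
event of relative probability at least `η' / 2`; its distance to the label of the level `v` is
`exp (C₆ z)` units in the natural box. -/
theorem nd_core (n K K' i : ℕ) (hin : i ≤ n) : ∃ (K'' : ℕ) (C₇ : ℝ), 1 ≤ C₇ ∧ ∀ {m J : ℕ}
    (F : Fam m J) (C : CDat F) (X : F.Ω → ℕ → ℝ) (w₀ z M v v' A' : ℕ) (g : ℕ → ℕ → ℕ)
    (σ : ℕ → ℝ) (κ C₁ C₆ η' : ℝ) (A B : F.Ω → Prop) (q : F.Ω → ℝ),
    C.CndX X n K w₀ z M g C₁ A → Sub B A →
    (∀ ω, q ω = Pool.Agent.H49.Ent.cond F.p B True ω) →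
    (C.ndX X n w₀ z M g).Ok0 n K J w₀ z M σ κ C₁ q → v ≤ v' → v' ≤ M → 0 ≤ C₆ →
    (C.ndX X n w₀ z M g).NewLab0 J w₀ z i v v' A' K' C₆ η' q →
    ∃ B' : F.Ω → Prop, Sub B' B ∧ η' / 2 * Pe F.p B ≤ Pe F.p B' ∧
      ∃ (V : Type) (y : PtT F → V) (y' : LnT F → V) (G : V → PN)
        (pr : V → ((k' : ℕ) → Option (C.V k')) × ℕ),
        (∀ v, (G v).totalDegree ≤ K'') ∧ (∀ v, (G v).vars ⊆ range i) ∧
        (∀ ω, B' ω → y (ptr F J ω) = y' (slam F (w₀ + v * z) ω)) ∧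
        (∀ ω, B' ω → pr (y' (slam F (w₀ + v * z) ω)) = C.lab w₀ z v ω) ∧
        (∀ ω, B' ω → |X ω i - eval (X ω) (G (y' (slam F (w₀ + v * z) ω)))| ≤
          C₇ / 2 ^ (g0 w₀ z g v i + A' * z)) ∧
        ∀ ω, B' ω → ∀ b : ℕ → ℝ, Bx (g0 w₀ z g v) (C.Ph w₀ z v ω) i b →
          |eval b (G (y' (slam F (w₀ + v * z) ω))) - eval b (C.Ph w₀ z v ω i)| ≤
            C₇ * Real.exp (C₆ * z) / 2 ^ g0 w₀ z g v i := by
  classical
  obtain ⟨K'', C₇, hC₇, hex⟩ := exl0_thm n K K' i hin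
  refine ⟨K'', C₇, hC₇, ?_⟩
  intro m J F C X w₀ z M v v' A' g σ κ C₁ C₆ η' A B q hC hBA hq hOk hvv hvM hC₆ hNL
  obtain ⟨W, ζ, ζ', G, pr, hpr, hdeg, hvars, hP⟩ :=
    hex J w₀ z M v v' A' σ κ C₁ C₆ η' (C.ndX X n w₀ z M g) q hOk hvv hvM hC₆ hNL
  set w := w₀ + v * z with hw
  have hwJ : w ≤ J := by
    have h1 := hOk.top
    have h2 : v * z ≤ (M + 1) * z := Nat.mul_le_mul_right z (by omega)
    omega
  have hw0 : w₀ ≤ w := by omega
  -- the event
  set E : F.Ω → Prop := fun ω => ζ ((C.ndX X n w₀ z M g).cs v' ω) =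
      ζ' ((C.ndX X n w₀ z M g).wn J w ω) ∧
      |(C.ndX X n w₀ z M g).X ω i - eval ((C.ndX X n w₀ z M g).X ω)
        (G (ζ' ((C.ndX X n w₀ z M g).wn J w ω)))| ≤
        C₇ / 2 ^ ((C.ndX X n w₀ z M g).g v i + A' * z) ∧
      ∀ b : ℕ → ℝ, Bx ((C.ndX X n w₀ z M g).g v)
        ((C.ndX X n w₀ z M g).P v ((C.ndX X n w₀ z M g).c v ω)) i b →
        |eval b (G (ζ' ((C.ndX X n w₀ z M g).wn J w ω))) -
          eval b ((C.ndX X n w₀ z M g).P v ((C.ndX X n w₀ z M g).c v ω) i)| ≤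
          C₇ * Real.exp (C₆ * z) / 2 ^ (C.ndX X n w₀ z M g).g v i with hE
  have hPE : η' / 2 ≤ Pb q E := hP
  have e2 : ∀ ω, ((C.ndX X n w₀ z M g).wn J w ω) = (((slam F w ω).1, (slam F w ω).2.1,
      (slam F w ω).2.2 / 2 ^ (w - w₀)), (slam F w ω).2.2) := by
    intro ω
    rw [← slam_coarse F hw0 hwJ ω]
    rfl
  refine ⟨fun ω => B ω ∧ E ω, fun ω h => h.1, ?_, W,
    fun y => ζ (fun k => C.labp w₀ z (min k v') y),
    fun s => ζ' ((s.1, s.2.1, s.2.2 / 2 ^ (w - w₀)), s.2.2), G, pr, hdeg, hvars, ?_, ?_, ?_, ?_⟩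
  · -- the probability
    have hBpos : 0 ≤ Pe F.p B := Pe_nonneg F.isLaw B
    have hlaw : law F.p B True = Pe F.p B := rfl
    have h1 : Pb q E * Pe F.p B ≤ Pe F.p (fun ω => B ω ∧ E ω) := by
      rw [Pe_eq F.p (fun ω => B ω ∧ E ω)]
      unfold Pb
      rw [Finset.sum_mul]
      refine Finset.sum_le_sum (fun ω _ => ?_)
      have hp0 := F.isLaw.nonneg ω
      by_cases hEω : E ω
      · rw [if_pos hEω, hq ω]
        unfold Pool.Agent.H49.Ent.cond
        by_cases hBω : B ω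
        · have e1 : B ω = True := eq_true hBω
          rw [if_pos e1, if_pos (show B ω ∧ E ω from ⟨hBω, hEω⟩), hlaw]
          by_cases h0 : Pe F.p B = 0
          · rw [h0, mul_zero]; exact hp0
          · exact le_of_eq (by field_simp)
        · have e1 : ¬ (B ω = True) := fun h => hBω (of_eq_true h)
          rw [if_neg e1, zero_mul, if_neg (fun h : B ω ∧ E ω => hBω h.1)]
      · rw [if_neg hEω, zero_mul, if_neg (fun h : B ω ∧ E ω => hEω h.2)]
    exact (mul_le_mul_of_nonneg_right hPE hBpos).trans h1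
  · rintro ω ⟨hBω, hEω⟩
    have e1 : (fun k => C.labp w₀ z (min k v') (ptr F J ω)) =
        (C.ndX X n w₀ z M g).cs v' ω := by
      funext k
      rw [← hC.lab_pt ((min_le_right _ _).trans hvM) (hBA ω hBω)]
      rfl
    show ζ (fun k => C.labp w₀ z (min k v') (ptr F J ω)) = _
    rw [e1, hEω.1, e2 ω]
    rfl
  · rintro ω ⟨hBω, hEω⟩
    refine (congrArg (fun u => pr (ζ' u)) (e2 ω)).symm.trans ?_
    show pr (ζ' ((C.ndX X n w₀ z M g).wn J w ω)) = _
    rw [← hEω.1, hpr]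
    show C.lab w₀ z (min v v') ω = _
    rw [min_eq_left hvv]
  · rintro ω ⟨hBω, hEω⟩
    have h1 := hEω.2.1
    rw [ndX_g C X n w₀ z M g hin, e2 ω] at h1
    exact h1
  · rintro ω ⟨hBω, hEω⟩ b hb
    have h1 := hEω.2.2 b ((ndX_Bx C X n w₀ z M g (hvv.trans hvM) (by omega) ω b).2 hb)
    rw [ndX_g C X n w₀ z M g hin, ndX_P C X n w₀ z M g (hvv.trans hvM) hin, e2 ω] at h1
    exact h1

/-- **(c2)** A new label of the system of a family is a closed label of the family. -/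
theorem nd_clb (n K K' i : ℕ) (hi : 1 ≤ i) (hin : i ≤ n) : ∃ (K'' c₀ : ℕ), ∀ {m J : ℕ}
    (F : Fam m J) (C : CDat F) (e : ℕ → Fin m) (w₀ z M v v' A' P : ℕ) (g : ℕ → ℕ → ℕ) (σ : ℕ → ℝ)
    (κ C₁ C₆ η' : ℝ) (A B : F.Ω → Prop) (q : F.Ω → ℝ), C.Cnd e n K w₀ z M g C₁ A →
    Sub B A → (∀ ω, q ω = Pool.Agent.H49.Ent.cond F.p B True ω) →
    (C.nd e n w₀ z M g).Ok0 n K J w₀ z M σ κ C₁ q → v ≤ v' → v' ≤ M → 0 ≤ C₆ →
    (C.nd e n w₀ z M g).NewLab0 J w₀ z i v v' A' K' C₆ η' q → P + c₀ ≤ g v i + A' * z →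
    ∃ B' : F.Ω → Prop, Sub B' B ∧ η' / 2 * Pe F.p B ≤ Pe F.p B' ∧
      CLb F (fun l => e (l + 1)) (i - 1) K'' (w₀ + v * z) P B' := by
  classical
  obtain ⟨K'', C₇, hC₇, hcore⟩ := nd_core n K K' i hin
  obtain ⟨c₀, hc₀⟩ : ∃ c₀ : ℕ, C₇ ≤ 2 ^ c₀ := by
    obtain ⟨k, hk⟩ := pow_unbounded_of_one_lt C₇ (show (1 : ℝ) < 2 by norm_num)
    exact ⟨k, hk.le⟩
  refine ⟨K'', c₀, ?_⟩
  intro m J F C e w₀ z M v v' A' P g σ κ C₁ C₆ η' A B q hC hBA hq hOk hvv hvM hC₆ hNL hPc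
  obtain ⟨B', hB'B, hPB, V, y, y', G, pr, hdeg, hvars, hcls, _, hpos, _⟩ :=
    hcore F C (cx F e) w₀ z M v v' A' g σ κ C₁ C₆ η' A B q hC.toX hBA hq hOk hvv hvM hC₆ hNL
  refine ⟨B', hB'B, hPB, V, y, y', fun v => ren e (G v), fun v => (ren_deg e _).trans (hdeg v),
    fun v => ren_dep e (hvars v), hcls, fun ω hω => ?_⟩
  have h1 := hpos ω hω
  have e3 : g0 w₀ z g v i = g v i := if_neg (by omega)
  have e5 : cx F e ω i = F.x ω (e i) := if_neg (by omega)
  rw [e3, e5] at h1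
  have e4 : i - 1 + 1 = i := by omega
  simp only [e4]
  rw [eval_ren_bt]
  refine le_trans h1 ?_
  rw [div_le_div_iff₀ (by positivity) (by positivity), one_mul]
  calc C₇ * 2 ^ P ≤ 2 ^ c₀ * 2 ^ P := mul_le_mul_of_nonneg_right hc₀ (by positivity)
    _ = 2 ^ (P + c₀) := by rw [← pow_add, add_comm]
    _ ≤ 2 ^ (g v i + A' * z) := pow_le_pow_right₀ (by norm_num) hPc

end Pool.STAT.NL
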