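import Pool.Agent.H74.STAT.NNo
import Pool.Agent.H82.STAT.Dpn

/-!
# No new labels of the drop-out system in a class

`dp_chn`: a new label of the drop-out system (`Pool.STAT.DPP.dd`) of a full chain `C` is a chain
of two-sided labels, of the length of the full chain.

`dp_last`, `dp_base`: in a class with thresholds, the drop-out systems have no new label of their
coordinates, with a better precision than the threshold.
-/

set_option autoImplicit false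

namespace Pool.STAT.NL

open Finset MvPolynomial
open Pool.Agent.H49.Ent Pool.Agent.H32.Dense Pool.STK Pool.KS3 Pool.KA Pool.KSAT Pool.K2S Pool.PB
open Pool.GEN Pool.STAT.CDat Pool.S6C
open Pool.STAT.DPP (Stc Hyp TDat dd dx dg)
open Pool.BFL (Pl CB Pb P2 MC alt)
open Pool.LBT (LSys Slo Tri ThrOf)
open Pool.LBN (Tch cof cof_lt cof_ge)

/-- **(c2) for the drop-out system.** -/
theorem dp_chn (p : ℕ → Prop) [DecidablePred p] (n K Kd K' i : ℕ) (hp : Stc p n) (hi : 1 ≤ i)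
    (hin : i ≤ Nat.count p n) : ∃ (K'' c₀ c : ℕ) (T₀ : ℝ), 2 ≤ T₀ ∧
    ∀ {m J : ℕ} {F : Fam m J} (C B : CDat F) (T : TDat F) (e : ℕ → Fin m)
    (w₀ z M v v' A' P e₀ e₁ r : ℕ) (g h : ℕ → ℕ → ℕ) (C₁ C₁' S Q ε κ C₆ η' : ℝ) (σ : ℕ → ℝ)
    (A E : F.Ω → Prop) (q : F.Ω → ℝ),
    Hyp C B T p e n K w₀ z M g h C₁ S Q ε A → 0 ≤ S → T₀ ≤ Q → Q ≤ 2 ^ r →
    (dd C B T p n w₀ z g).CndX (dx C p e n w₀ z) (Nat.count p n) Kd w₀ z M (dg p g) C₁' A →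
    LipC F C w₀ z v (Nat.nth p i) e₀ g A → Sub E A →
    (∀ j j', 1 ≤ j → j ≤ n → 1 ≤ j' → j' ≤ n → e j = e j' → j = j') →
    (∀ ω, q ω = Pool.Agent.H49.Ent.cond F.p E True ω) →
    ((dd C B T p n w₀ z g).ndX (dx C p e n w₀ z) (Nat.count p n) w₀ z M (dg p g)).Ok0
      (Nat.count p n) Kd J w₀ z M σ κ C₁' q →
    v ≤ v' → v' ≤ M → 0 ≤ C₆ →
    ((dd C B T p n w₀ z g).ndX (dx C p e n w₀ z) (Nat.count p n) w₀ z M (dg p g)).NewLab0
      J w₀ z i v v' A' K' C₆ η' q →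
    P + c₀ ≤ g v (Nat.nth p i) + A' * z →
    e₀ + A' * z + ⌈2 * (C₆ * z)⌉₊ + c * r + c₀ ≤ e₁ →
    ∃ E' : F.Ω → Prop, Sub E' E ∧ η' / 2 * Pe F.p E ≤ Pe F.p E' ∧
      ChN F (fun l => e (l + 1)) (Nat.nth p i) (fun _ => K'') (w₀ + v * z) (w₀ + v * z) e₁
        (fun l => if l = Nat.nth p i - 1 then P else g v (l + 1)) E' := by
  classical
  obtain ⟨Kh, c, C₇, T₀, hC₇, hT₀, hnew⟩ := Pool.STAT.DPP.newlab p n K Kd K' i hi hin
  obtain ⟨c₂, hc₂⟩ : ∃ c₂ : ℕ, C₇ ≤ 2 ^ c₂ := by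
    obtain ⟨k, hk⟩ := pow_unbounded_of_one_lt C₇ (show (1 : ℝ) < 2 by norm_num)
    exact ⟨k, hk.le⟩
  have hs1 : 1 ≤ Nat.nth p i := hp.st_pos hi
  have hsn : Nat.nth p i ≤ n := hp.st_le hin
  obtain ⟨c₁, htop⟩ := chn_of_top n K Kh (Nat.nth p i) hs1 hsn
  refine ⟨max K Kh, 2 * c₂ + c₁, c, T₀, hT₀, ?_⟩
  intro m J F C B T e w₀ z M v v' A' P e₀ e₁ r g h C₁ C₁' S Q ε κ C₆ η' σ A E q H hS hQ hQr
    hcnd hlip hEA hinj hq hOk hvv hvM hC₆ hNL hPc he₁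
  obtain ⟨E', hE'E, hPE, V, y, y', G, pr, hdeg, hvars, hcls, _, hpos, hbox⟩ :=
    hnew C B T e w₀ z M v v' A' g h C₁ C₁' S Q ε κ C₆ η' σ A E q H hS hQ hcnd hEA hq hOk hvv
      hvM hC₆ hNL
  have hwJ : w₀ + v * z ≤ J := by
    have h1 := H.top
    have h2 : v * z ≤ (M + 1) * z := Nat.mul_le_mul_right z (by omega)
    omega
  have e5 : ∀ ω, cx F e ω (Nat.nth p i) = F.x ω (e (Nat.nth p i)) := fun ω =>
    if_neg (by omega)
  refine ⟨E', hE'E, hPE, htop F C e w₀ z M v P e₀ e₁ (c₂ + ⌈2 * (C₆ * z)⌉₊ + c * r) g C₁ A E'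
    H.fat (hvv.trans hvM) hwJ hlip (fun ω hω => hEA ω (hE'E ω hω)) hinj
    ⟨V, y, y', G, hdeg, hvars, hcls, fun ω hω => ?_, fun ω hω b hb => ?_⟩ (by omega)⟩
  · have h1 := hpos ω hω
    rw [e5] at h1
    refine h1.trans ?_
    rw [div_le_div_iff₀ (by positivity) (by positivity), one_mul]
    calc C₇ * 2 ^ P ≤ 2 ^ c₂ * 2 ^ P := mul_le_mul_of_nonneg_right hc₂ (by positivity)
      _ = 2 ^ (P + c₂) := by rw [← pow_add, add_comm]
      _ ≤ 2 ^ (g v (Nat.nth p i) + A' * z) := pow_le_pow_right₀ (by norm_num) (by omega)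
  · have h1 := hbox ω hω b hb
    refine h1.trans (div_le_div_of_nonneg_right ?_ (by positivity))
    have hQ0 : 0 ≤ Q := by linarith
    have hx : 0 ≤ C₆ * z := mul_nonneg hC₆ (Nat.cast_nonneg _)
    have h2 : Real.exp (C₆ * z) ≤ 2 ^ ⌈2 * (C₆ * z)⌉₊ := by
      have h2 : Real.exp (C₆ * z) ≤ Real.exp (⌈2 * (C₆ * z)⌉₊ * Real.log 2) := by
        refine Real.exp_le_exp.2 ?_
        have h3 : 2 * (C₆ * z) ≤ ⌈2 * (C₆ * z)⌉₊ := Nat.le_ceil _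
        have h4 : (0.6931471803 : ℝ) < Real.log 2 := Real.log_two_gt_d9
        have h5 : 2 * (C₆ * z) * Real.log 2 ≤ ⌈2 * (C₆ * z)⌉₊ * Real.log 2 :=
          mul_le_mul_of_nonneg_right h3 (by linarith)
        nlinarith
      refine h2.trans (le_of_eq ?_)
      rw [← Real.log_pow, Real.exp_log (by positivity)]
    have h3 : Q ^ c ≤ 2 ^ (c * r) := by
      rw [mul_comm c r, pow_mul]
      exact pow_le_pow_left₀ hQ0 hQr c
    have e1 : (2 : ℝ) ^ (c₂ + ⌈2 * (C₆ * z)⌉₊ + c * r) =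
        2 ^ c₂ * (2 ^ ⌈2 * (C₆ * z)⌉₊ * 2 ^ (c * r)) := by
      rw [pow_add, pow_add, mul_assoc]
    rw [e1]
    refine mul_le_mul hc₂ ?_ (mul_nonneg (Real.exp_pos _).le (pow_nonneg hQ0 c)) (by positivity)
    exact mul_le_mul h2 h3 (pow_nonneg hQ0 c) (by positivity)

/-- A chain of length `n` with the last coordinate `k` is a label of `Pool.ONE.tgs k`. -/
theorem tgs_of_chn {m J : ℕ} {F : Fam m J} {k : Fin m} {e : ℕ → Fin m} {n K'' w Q w' e₁ : ℕ}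
    {g : ℕ → ℕ} {B : F.Ω → Prop} (hn : 1 ≤ n)
    (hinj : ∀ j j', 1 ≤ j → j ≤ n → 1 ≤ j' → j' ≤ n → e j = e j' → j = j') (hek : e n = k)
    (hwa : w ≤ w') (hQ : Q ≤ J) (hgJ : ∀ i, 1 ≤ i → i ≤ n → g i ≤ J)
    (hch : ChN F (fun l => e (l + 1)) n (fun _ => K'') w w e₁
      (fun l => if l = n - 1 then Q else g (l + 1)) B) :
    (Pool.ONE.tgs k).T () K'' w' w' Q J F B := by
  classical
  set l : List (Fin m) := (List.range (n - 1)).map (fun l => e (l + 1)) with hl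
  have hlen : l.length = n - 1 := by simp [hl]
  have hmem : ∀ {x : Fin m}, x ∈ l → ∃ j, j < n - 1 ∧ e (j + 1) = x := by
    intro x hx
    rw [hl, List.mem_map] at hx
    obtain ⟨j, hj, hj'⟩ := hx
    exact ⟨j, List.mem_range.1 hj, hj'⟩
  refine ⟨l, ?_, fun hk => ?_, ?_⟩
  · rw [hl]
    refine List.Nodup.map_on (fun x hx y hy hxy => ?_) List.nodup_range
    have hx' := List.mem_range.1 hx
    have hy' := List.mem_range.1 hy
    have := hinj (x + 1) (y + 1) (by omega) (by omega) (by omega) (by omega) hxy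
    omega
  · obtain ⟨j, hj, hj'⟩ := hmem hk
    have := hinj (j + 1) n (by omega) (by omega) hn le_rfl (hj'.trans hek.symm)
    omega
  · refine ⟨w, w, e₁, fun l => if l = n - 1 then Q else g (l + 1), le_rfl, hwa, hwa, ?_, ?_, ?_⟩
    · rw [hlen]
      simp only [if_true]
      exact Nat.add_le_add_left hwa _
    · intro i hi
      rw [hlen] at hi
      simp only
      split_ifs with h1
      · exact hQ
      · exact hgJ (i + 1) (by omega) (by omega)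
    · rw [hlen]
      have e1 : n - 1 + 1 = n := by omega
      rw [e1]
      refine Pool.LBN.chn_congr hch (fun i hi => ?_) (fun _ _ => le_rfl) fun _ _ => rfl
      rcases Nat.lt_or_ge i (n - 1) with h2 | h2
      · rw [cof_lt (by rw [hlen]; exact h2)]
        simp [hl]
      · rw [cof_ge (by rw [hlen]; exact h2)]
        have e2 : i + 1 = n := by omega
        rw [e2, hek]

/-- **No new label of the last coordinate** of the drop-out systems (index `count p n`), for the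
thresholds over any list. No condition for the gradients. -/
theorem dp_last {m : ℕ} {S : PCl m} {k : Fin m} {P : ℝ → ℝ → ℝ}
    (hS : ThrOf (Pool.ONE.tgs k) S (fun _ => P)) (p : ℕ → Prop) [DecidablePred p]
    (n K Kd K' A' : ℕ) (hp : Stc p n) (hc1 : 1 ≤ Nat.count p n) (C₆ η' h' K₁ : ℝ) (a : ℚ)
    (ha0 : 0 ≤ a) (ha : a ≤ 1) (hh : 0 < h') (hP : P a a + h' ≤ 1) (hη : 0 < η')
    (hK₁ : 0 < K₁) (hC₆ : 0 ≤ C₆) :
    ∃ (c₀ : ℕ) (T₀ : ℝ), 2 ≤ T₀ ∧ Bas S (fun J F A => ∀ (C B : CDat F) (T : TDat F)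
      (e : ℕ → Fin m) (w₀ z M v v' e₀ : ℕ) (g h : ℕ → ℕ → ℕ) (C₁ C₁' S' Q ε κ : ℝ) (σ : ℕ → ℝ)
      (A₀ E : F.Ω → Prop), Sub A₀ A → Hyp C B T p e n K w₀ z M g h C₁ S' Q ε A₀ → 0 ≤ S' →
      T₀ ≤ Q →
      (dd C B T p n w₀ z g).CndX (dx C p e n w₀ z) (Nat.count p n) Kd w₀ z M (dg p g) C₁' A₀ →
      LipC F C w₀ z v n e₀ g A₀ → Sub E A₀ → Pe F.p A ≤ K₁ * Pe F.p E →
      (∀ j j', 1 ≤ j → j ≤ n → 1 ≤ j' → j' ≤ n → e j = e j' → j = j') → e n = k →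
      ((dd C B T p n w₀ z g).ndX (dx C p e n w₀ z) (Nat.count p n) w₀ z M (dg p g)).Ok0
        (Nat.count p n) Kd J w₀ z M σ κ C₁' (Pool.Agent.H49.Ent.cond F.p E True) →
      v ≤ v' → v' ≤ M → (∀ i, 1 ≤ i → i ≤ n → g v i ≤ J) → w₀ + v * z ≤ ⌊(a : ℝ) * J⌋₊ →
      ⌊(P a a + h') * J⌋₊ + c₀ ≤ g v n + A' * z →
      ¬ ((dd C B T p n w₀ z g).ndX (dx C p e n w₀ z) (Nat.count p n) w₀ z M (dg p g)).NewLab0
        J w₀ z (Nat.count p n) v v' A' K' C₆ η' (Pool.Agent.H49.Ent.cond F.p E True)) := by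
  classical
  obtain ⟨K'', c₀, c, T₀, hT₀, hnd⟩ := dp_chn p n K Kd K' (Nat.count p n) hp hc1 le_rfl
  refine ⟨c₀, T₀, hT₀, ?_⟩
  have hno := hS.no () K'' a a h' ha0 le_rfl ha hh hP
  refine Bas.mono 0 (Bas.frac hno (c := η' / 2 / K₁) (by positivity)) ?_
  intro J _ F A hA C B T e w₀ z M v v' e₀ g h C₁ C₁' S' Q ε κ σ A₀ E hA₀ H hS' hQ hcnd hlip
    hE hPE hinj hek hOk hvv hvM hgJ hwa hprec hNL
  have hst : Nat.nth p (Nat.count p n) = n := hp.st_last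
  obtain ⟨r, hr⟩ : ∃ r : ℕ, Q ≤ 2 ^ r := by
    obtain ⟨k, hk⟩ := pow_unbounded_of_one_lt Q (show (1 : ℝ) < 2 by norm_num)
    exact ⟨k, hk.le⟩
  obtain ⟨E', hE'E, hPE', hch⟩ := hnd C B T e w₀ z M v v' A' ⌊(P a a + h') * J⌋₊ e₀
    (e₀ + A' * z + ⌈2 * (C₆ * z)⌉₊ + c * r + c₀) r g h C₁ C₁' S' Q ε κ C₆ η' σ A₀ E _ H hS' hQ
    hr hcnd (by rw [hst]; exact hlip) hE hinj (fun _ => rfl) hOk hvv hvM hC₆ hNL
    (by rw [hst]; exact hprec) le_rfl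
  rw [hst] at hch
  refine hA E' (fun ω hω => hA₀ ω (hE ω (hE'E ω hω))) ?_
    (tgs_of_chn (g := g v) (H.n_pos) hinj hek hwa (Pool.LBT.fl_le' hP J) hgJ hch)
  have h1 := Pe_nonneg F.isLaw A
  calc η' / 2 / K₁ * Pe F.p A ≤ η' / 2 / K₁ * (K₁ * Pe F.p E) :=
        mul_le_mul_of_nonneg_left hPE (by positivity)
    _ = η' / 2 * Pe F.p E := by field_simp
    _ ≤ _ := hPE'

/-- **No new label of any coordinate of the drop-out systems**, for the thresholds of the chains;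
the gradients of the new label are at most `2 ^ (ε J)`. -/
theorem dp_base {m : ℕ} {S : PCl m} {θ : ℝ} {P : List (Fin m) × Fin m → ℝ → ℝ → ℝ}
    (hS : ThrOf (Pool.CHT.chsys m θ) S P) (e : ℕ → Fin m) (p : ℕ → Prop) [DecidablePred p]
    (n K Kd K' A' i : ℕ) (hp : Stc p n) (hi : 1 ≤ i) (hin : i ≤ Nat.count p n)
    (C₆ η' h' K₁ ε' : ℝ) (a : ℚ) (ha0 : 0 ≤ a) (ha : a ≤ 1) (hε : ε' < θ * a) (hh : 0 < h')
    (hP : Pool.CHT.bet P (fun l => e (l + 1)) (Nat.nth p i - 1) a a + h' ≤ 1) (hη : 0 < η')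
    (hK₁ : 0 < K₁) (hC₆ : 0 ≤ C₆) :
    ∃ (c₀ c : ℕ) (T₀ : ℝ), 2 ≤ T₀ ∧ Bas S (fun J F A => ∀ (C B : CDat F) (T : TDat F)
      (w₀ z M v v' e₀ r : ℕ) (g h : ℕ → ℕ → ℕ) (C₁ C₁' S' Q ε κ : ℝ) (σ : ℕ → ℝ)
      (A₀ E : F.Ω → Prop), Sub A₀ A → Hyp C B T p e n K w₀ z M g h C₁ S' Q ε A₀ → 0 ≤ S' →
      T₀ ≤ Q → Q ≤ 2 ^ r →
      (dd C B T p n w₀ z g).CndX (dx C p e n w₀ z) (Nat.count p n) Kd w₀ z M (dg p g) C₁' A₀ →
      LipC F C w₀ z v (Nat.nth p i) e₀ g A₀ → Sub E A₀ → Pe F.p A ≤ K₁ * Pe F.p E →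
      (∀ j j', 1 ≤ j → j ≤ n → 1 ≤ j' → j' ≤ n → e j = e j' → j = j') →
      ((dd C B T p n w₀ z g).ndX (dx C p e n w₀ z) (Nat.count p n) w₀ z M (dg p g)).Ok0
        (Nat.count p n) Kd J w₀ z M σ κ C₁' (Pool.Agent.H49.Ent.cond F.p E True) →
      v ≤ v' → v' ≤ M → (∀ i, 1 ≤ i → i ≤ n → g v i ≤ J) → w₀ + v * z ≤ ⌊(a : ℝ) * J⌋₊ →
      e₀ + A' * z + ⌈2 * (C₆ * z)⌉₊ + c * r + c₀ ≤ ⌊ε' * J⌋₊ →
      ⌊(Pool.CHT.bet P (fun l => e (l + 1)) (Nat.nth p i - 1) a a + h') * J⌋₊ + c₀ ≤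
        g v (Nat.nth p i) + A' * z →
      ¬ ((dd C B T p n w₀ z g).ndX (dx C p e n w₀ z) (Nat.count p n) w₀ z M (dg p g)).NewLab0
        J w₀ z i v v' A' K' C₆ η' (Pool.Agent.H49.Ent.cond F.p E True)) := by
  classical
  obtain ⟨K'', c₀, c, T₀, hT₀, hnd⟩ := dp_chn p n K Kd K' i hp hi hin
  refine ⟨c₀, c, T₀, hT₀, ?_⟩
  have hs1 : 1 ≤ Nat.nth p i := hp.st_pos hi
  have hsn : Nat.nth p i ≤ n := hp.st_le hin
  have hno := Pool.CHT.no_unif hS (fun l => e (l + 1)) (Nat.nth p i - 1) (fun _ => K'') a a ε' h'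
    ha0 le_rfl ha hε hh hP
  refine Bas.mono 0 (Bas.frac hno (c := η' / 2 / K₁) (by positivity)) ?_
  intro J _ F A hA C B T w₀ z M v v' e₀ r g h C₁ C₁' S' Q ε κ σ A₀ E hA₀ H hS' hQ hr hcnd hlip
    hE hPE hinj hOk hvv hvM hgJ hwa hgr hprec hNL
  obtain ⟨E', hE'E, hPE', hch⟩ := hnd C B T e w₀ z M v v' A'
    ⌊(Pool.CHT.bet P (fun l => e (l + 1)) (Nat.nth p i - 1) a a + h') * J⌋₊ e₀ ⌊ε' * J⌋₊ r g h C₁
    C₁' S' Q ε κ C₆ η' σ A₀ E _ H hS' hQ hr hcnd hlip hE hinj (fun _ => rfl) hOk hvv hvM hC₆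
    hNL hprec hgr
  have e1 : Nat.nth p i - 1 + 1 = Nat.nth p i := by omega
  refine hA E' (fun ω hω => hA₀ ω (hE ω (hE'E ω hω))) ?_ (w₀ + v * z) (w₀ + v * z) ⌊ε' * J⌋₊ _
    le_rfl hwa hwa le_rfl (fun l hl => ?_) ?_ (by rw [e1]; exact hch)
  · have h1 := Pe_nonneg F.isLaw A
    calc η' / 2 / K₁ * Pe F.p A ≤ η' / 2 / K₁ * (K₁ * Pe F.p E) :=
          mul_le_mul_of_nonneg_left hPE (by positivity)
      _ = η' / 2 * Pe F.p E := by field_simp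
      _ ≤ _ := hPE'
  · split_ifs with h1
    · exact Pool.LBT.fl_le' hP J
    · exact hgJ (l + 1) (by omega) (by omega)
  · simp only [if_true]
    exact Nat.add_le_add_left hwa _

end Pool.STAT.NL
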